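import Mathlib

set_option autoImplicit false

/-! # Nonconstant polynomials stay nonconstant over a larger ring -/

namespace Pool.Agent.U841.PA

open MvPolynomial

/-- The image of a nonconstant polynomial under an injective homomorphism is not a unit -/
theorem not_unit_map {R : Type} [CommRing R] {σ : Type} (φ : R →+* ℂ) (hφ : Function.Injective φ)
    (F : MvPolynomial σ R) (hF : F.totalDegree ≠ 0) : ¬ IsUnit (map φ F) := by
  intro h
  rw [isUnit_iff_totalDegree_of_isReduced] at h
  refine hF ?_
  rw [← h.2]
  unfold totalDegree
  rw [support_map_of_injective _ hφ]

end Pool.Agent.U841.PA
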