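import Pool.Agent.U841.PA.Cone
import Pool.Agent.U841.SN.Final

set_option autoImplicit false
set_option linter.unusedSectionVars false
set_option linter.unusedVariables false

/-! # The `p`-adic zeta functions of products of powers of forms with normal crossings -/

namespace Pool.Agent.U841.PA

open MeasureTheory MvPolynomial Pool.Agent.W427.SMC Pool.Agent.Y230.PT Pool.Agent.Y230.PS
open scoped ENNReal
open Pool.Agent.U184 (fam FF_fam)
open Pool.Agent.U841.SN (NormalCrossings prodPow)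
open Pool.Agent.H628R4.TP (IsBFunction)

attribute [local instance] msZ bsZ

variable {p : ℕ} [Fact p.Prime] {T : Type} [Fintype T]

section

variable {n : ℕ}

open Classical in
/-- the zeta function in a chart -/
theorem FR_chart (f : T → MvPolynomial (Fin (n + 1)) ℚ) (δ : T → ℕ)
    (hf : ∀ t, (f t).IsHomogeneous (δ t))
    (hNC : NormalCrossings fun t => map (algebraMap ℚ ℂ) (f t)) (a : T → ℕ) (i : Fin (n + 1))
    (c : Fin n → ℚ_[p]) (hc : ∀ k, c k ≠ 0) :
    FR p (fun T0 => if ∃ t, T0 ^ a t = (p : ℂ) then ⊤ else 0)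
      (FF (scl c (fun j => dehK i (fam p (∏ t, f t ^ a t) j)))) := by
  obtain ⟨K, g, hg⟩ := exists_int fun t => chart i c (map (algebraMap ℚ ℚ_[p]) (f t))
  set F := scl c (fun j => dehK i (fam p (∏ t, f t ^ a t) j)) with hF
  have h1 := FR_rho g a (fun T0 => if ∃ t, T0 ^ a t = (p : ℂ) then ⊤ else 0) (fun x0 =>
    ⟨chart_li f δ hf hNC i c hc K g hg x0, fun T0 hT0 => by
      by_cases h : ∃ t, T0 ^ a t = (p : ℂ)
      · rw [if_pos h]
        exact le_top
      · rw [if_neg h]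
        push Not at h
        refine le_of_eq (Finset.sum_eq_zero fun t _ => if_neg (h t))⟩)
  refine (FR_scale (Measure.pi fun _ : Fin n => mu p) (sz F) (sz_nonneg F)
    (K * ∑ t, a t)).1 ?_
  have h2 : rho g a = fun x => ((p : ℝ)⁻¹) ^ (K * ∑ t, a t) * sz F x := by
    funext x
    have h3 : sz F x = ‖eval (fun i => inc p (x i))
        (chart i c (map (algebraMap ℚ ℚ_[p]) (∏ t, f t ^ a t)))‖ :=
      pi_norm_const (ι := Fin 1) (eval (fun i => inc p (x i))
        (chart i c (map (algebraMap ℚ ℚ_[p]) (∏ t, f t ^ a t))))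
    rw [h3, map_prod, map_prod, map_prod, norm_prod, rho, pow_mul, ← Finset.prod_pow_eq_pow_sum,
      ← Finset.prod_mul_distrib]
    refine Finset.prod_congr rfl fun t _ => ?_
    rw [map_pow, map_pow, map_pow, norm_pow, ← mul_pow]
    congr 1
    rw [PadicInt.norm_def, map_eval_coe, hg, map_mul, eval_C, norm_mul, norm_pow, Padic.norm_p]
  rw [← h2]
  exact h1

open Classical in
/-- **The zeta function of a cone over a divisor with normal crossings.** -/
theorem FR_nc (f : T → MvPolynomial (Fin (n + 1)) ℚ) (δ : T → ℕ)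
    (hf : ∀ t, (f t).IsHomogeneous (δ t))
    (hNC : NormalCrossings fun t => map (algebraMap ℚ ℂ) (f t)) (a : T → ℕ)
    (hd : 0 < ∑ t, a t * δ t) :
    FR p (fun T0 => if T0 ^ (∑ t, a t * δ t) = (p : ℂ) ^ (n + 1) ∨ ∃ t, T0 ^ a t = (p : ℂ)
      then ⊤ else 0) (FF (fam p (∏ t, f t ^ a t))) := by
  have hh : (∏ t, f t ^ a t).IsHomogeneous (∑ t, a t * δ t) := by
    refine IsHomogeneous.prod _ _ _ fun t _ => ?_
    rw [mul_comm]
    exact (hf t).pow _
  have h := FR_cone (p := p) (n := n) (fam p (∏ t, f t ^ a t)) (∑ t, a t * δ t) hd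
    (fun _ => hh.map _) (fun T0 => if ∃ t, T0 ^ a t = (p : ℂ) then ⊤ else 0)
    (fun T0 => if T0 ^ (∑ t, a t * δ t) = (p : ℂ) ^ (n + 1) ∨ ∃ t, T0 ^ a t = (p : ℂ)
      then ⊤ else 0) (fun T0 hT0 => ?_)
    (fun i c hc => FR_chart f δ hf hNC a i c hc) (fun _ => 1) (fun _ => one_ne_zero)
  · rwa [scl_one] at h
  · by_cases h1 : T0 ^ (∑ t, a t * δ t) = (p : ℂ) ^ (n + 1)
    · rw [if_pos (Or.inl h1)]
      exact le_top
    · by_cases h2 : ∃ t, T0 ^ a t = (p : ℂ)
      · rw [if_pos (Or.inr h2)]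
        exact le_top
      · rw [if_neg h1, if_neg h2, if_neg (not_or.2 ⟨h1, h2⟩), add_zero]

end

/-- the real part of a candidate pole -/
theorem rr_pow (d k : ℕ) (hd : 0 < d) (T0 : ℂ) (h : T0 ^ d = (p : ℂ) ^ k) :
    rr p T0 = -(k : ℝ) / (d : ℝ) := by
  have hp : (1 : ℝ) < p := by exact_mod_cast (Fact.out : p.Prime).one_lt
  have hl : Real.log p ≠ 0 := (Real.log_pos hp).ne'
  have hdR : (d : ℝ) ≠ 0 := by exact_mod_cast hd.ne'
  have h1 := congrArg (fun z => Real.log ‖z‖) h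
  simp only [norm_pow, Complex.norm_natCast, Real.log_pow] at h1
  unfold rr
  rw [div_eq_div_iff hl hdR]
  linear_combination -h1

variable {n : ℕ} (hn : 2 ≤ n) (f : T → MvPolynomial (Fin n) ℚ) (δ : T → ℕ)
  (hf : ∀ t, (f t).IsHomogeneous (δ t)) (hδ : ∀ t, 0 < δ t)
  (hNC : NormalCrossings fun t => map (algebraMap ℚ ℂ) (f t)) (h2 : ∃ t, 2 ≤ δ t)
  (a : T → ℕ) (ha : ∀ t, 0 < a t)

theorem map_prodPow : map (algebraMap ℚ ℂ) (∏ t, f t ^ a t) =
    prodPow (fun t => map (algebraMap ℚ ℂ) (f t)) a := by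
  rw [prodPow, map_prod]
  exact Finset.prod_congr rfl fun t _ => map_pow _ _ _

include hn hf hδ hNC h2 ha in
/-- **A rational function with denominator**, whose roots come from roots of `b` -/
theorem nc_rat (b : Polynomial ℂ) (hb : IsBFunction (map (algebraMap ℚ ℂ) (∏ t, f t ^ a t)) b) :
    ∃ D P : Polynomial ℂ, D ≠ 0 ∧ (∀ s : ℝ, 0 ≤ s →
      D.eval ((tr' p s : ℝ) : ℂ) * ((∫⁻ x : Fin n → ℤ_[p], N p s (eval₂ (algebraMap ℚ ℚ_[p])
        (fun i => inc p (x i)) (∏ t, f t ^ a t)) ∂(Measure.pi fun _ : Fin n => mu p)).toReal : ℂ) =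
          P.eval ((tr' p s : ℝ) : ℂ)) ∧
      ∀ T0, T0 ≠ 0 → D.eval T0 = 0 → b.eval ((rr p T0 : ℝ) : ℂ) = 0 := by
  classical
  obtain ⟨t0, ht0⟩ := h2
  obtain ⟨m, rfl⟩ : ∃ m, n = m + 1 := ⟨n - 1, by omega⟩
  have hd : 0 < ∑ t, a t * δ t :=
    (Nat.mul_pos (ha t0) (hδ t0)).trans_le (Finset.single_le_sum (f := fun t => a t * δ t)
      (fun _ _ => Nat.zero_le _) (Finset.mem_univ t0))
  obtain ⟨D, P, hD, h3, h4⟩ := (FR_nc (p := p) f δ hf hNC a hd).rat
  refine ⟨D, P, hD, fun s hs => ?_, fun T0 hT0 hD0 => ?_⟩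
  · rw [← FF_fam]
    exact h3 s hs
  · rw [map_prodPow] at hb
    have hcand := Pool.Agent.U841.SN.cand_root (fun t => map (algebraMap ℚ ℂ) (f t)) δ
      (fun t => (hf t).map _) hδ hNC hn a ha ⟨t0, ht0⟩ b hb
    have h5 := h4 T0 hT0
    have h6 : 1 ≤ D.rootMultiplicity T0 := by
      rw [Nat.one_le_iff_ne_zero, Ne, Polynomial.rootMultiplicity_eq_zero_iff]
      intro h
      exact hD (h hD0)
    unfold Pool.Agent.Y230.PS.tr at h5
    by_cases h7 : ‖T0‖ ≤ 1
    · rw [if_pos h7] at h5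
      have : D.rootMultiplicity T0 = 0 := by exact_mod_cast le_antisymm h5 bot_le
      omega
    · rw [if_neg h7] at h5
      by_cases h8 : T0 ^ (∑ t, a t * δ t) = (p : ℂ) ^ (m + 1) ∨ ∃ t, T0 ^ a t = (p : ℂ)
      · rcases h8 with h8 | ⟨t, h8⟩
        · have h9 := rr_pow (p := p) _ _ hd _ h8
          have h10 := hcand none
          rw [h9]
          have h11 : ((-((m + 1 : ℕ) : ℝ) / ((∑ t, a t * δ t : ℕ) : ℝ) : ℝ) : ℂ) =
              -((m + 1 : ℕ) : ℂ) / ((∑ t, a t * δ t : ℕ) : ℂ) := by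
            rw [Complex.ofReal_div, Complex.ofReal_neg, Complex.ofReal_natCast,
              Complex.ofReal_natCast]
          rw [h11]
          exact h10
        · have h8' : T0 ^ a t = (p : ℂ) ^ 1 := by rw [pow_one]; exact h8
          have h9 := rr_pow (p := p) _ _ (ha t) _ h8'
          have h10 := hcand (some t)
          rw [h9]
          have h11 : ((-((1 : ℕ) : ℝ) / ((a t : ℕ) : ℝ) : ℝ) : ℂ) =
              -((1 : ℕ) : ℂ) / ((a t : ℕ) : ℂ) := by
            rw [Complex.ofReal_div, Complex.ofReal_neg, Complex.ofReal_natCast,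
              Complex.ofReal_natCast]
          rw [h11]
          exact h10
      · beta_reduce at h5
        rw [if_neg h8] at h5
        have : D.rootMultiplicity T0 = 0 := by exact_mod_cast le_antisymm h5 bot_le
        omega

include hn hf hδ hNC h2 ha in
/-- **The real parts of the poles** -/
theorem mero_nc (b : Polynomial ℂ) (hb : IsBFunction (map (algebraMap ℚ ℂ) (∏ t, f t ^ a t)) b)
    (Z : ℂ → ℂ) (hZ : MeromorphicOn Z Set.univ)
    (hZp : ∀ s : ℝ, 0 < s → Z s = zetaQ p (∏ t, f t ^ a t) s) (s₀ : ℂ)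
    (hs : meromorphicOrderAt Z s₀ < 0) : b.eval (s₀.re : ℂ) = 0 := by
  obtain ⟨D, P, hD0, h1, h3⟩ := nc_rat (p := p) hn f δ hf hδ hNC h2 a ha b hb
  have h4 := mero_bound p D P hD0 Z hZ (fun s hs => by
    rw [pw_real, hZp s hs, zetaQ_eq, h1 s hs.le]) s₀
  have h5 : rr p (pw p s₀) = s₀.re := pw_norm p s₀
  have hn : D.rootMultiplicity (pw p s₀) ≠ 0 := by
    intro h0
    rw [h0] at h4
    exact absurd (lt_of_le_of_lt h4 hs) (by simp)
  rw [← h5]
  refine h3 _ (pw_ne_zero p s₀) ?_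
  by_contra hne
  exact hn (Polynomial.rootMultiplicity_eq_zero hne)

end Pool.Agent.U841.PA
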