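import Pool.Agent.U841.PA.Zeta

set_option autoImplicit false
set_option linter.unusedSectionVars false
set_option linter.unusedVariables false

/-! # Integral coefficients: the Poincaré series and the Igusa zeta function -/

namespace Pool.Agent.U841.PA

open MeasureTheory MvPolynomial Pool.Agent.W427.SMC Pool.Agent.Y230.PT Pool.Agent.Y230.PS
open scoped ENNReal
open Pool.Agent.U841.SN (NormalCrossings prodPow)
open Pool.Agent.H628R4.TP (IsBFunction)

attribute [local instance] msZ bsZ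

variable {p : ℕ} [Fact p.Prime] {T : Type} [Fintype T]

variable {n : ℕ} (hn : 2 ≤ n) (f : T → MvPolynomial (Fin n) ℤ) (δ : T → ℕ)
  (hf : ∀ t, (f t).IsHomogeneous (δ t)) (hδ : ∀ t, 0 < δ t)
  (hNC : NormalCrossings fun t => map (Int.castRingHom ℂ) (f t)) (h2 : ∃ t, 2 ≤ δ t)
  (a : T → ℕ) (ha : ∀ t, 0 < a t)

theorem castZ' {σ : Type} (F : MvPolynomial σ ℤ) : map (Int.castRingHom ℂ) F =
    map (algebraMap ℚ ℂ) (map (Int.castRingHom ℚ) F) := by
  rw [map_map]
  congr 1

theorem castQ_prod : map (Int.castRingHom ℚ) (∏ t, f t ^ a t) =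
    ∏ t, (map (Int.castRingHom ℚ) (f t)) ^ a t := by
  rw [map_prod]
  exact Finset.prod_congr rfl fun t _ => map_pow _ _ _

include hn hf hδ hNC h2 ha in
/-- **The Poincaré series**, for every prime `p` -/
theorem poin_nc (b : Polynomial ℂ) (hb : IsBFunction (map (Int.castRingHom ℂ) (∏ t, f t ^ a t)) b) :
    ∃ Φ : RatFunc ℂ, ((Φ.denom : Polynomial ℂ) : PowerSeries ℂ) * poincare p (∏ t, f t ^ a t) =
        ((Φ.num : Polynomial ℂ) : PowerSeries ℂ) ∧
      ∀ T₀ : ℂ, Φ.denom.eval T₀ = 0 →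
        b.eval ((-Real.log ‖T₀‖ / Real.log p : ℝ) : ℂ) = 0 := by
  rw [castZ', castQ_prod] at hb
  simp only [castZ'] at hNC
  obtain ⟨D, P, hD0, h1, h3⟩ := nc_rat (p := p) hn (fun t => map (Int.castRingHom ℚ) (f t)) δ
    (fun t => (hf t).map _) hδ hNC h2 a ha b hb
  obtain ⟨Φ, h4, h5, h6⟩ := poincare_of p (∏ t, f t ^ a t) D P hD0 (fun s hs => by
    rw [← h1 s hs, ← castQ_prod]
    simp only [tau_N])
  refine ⟨Φ, h4, fun T hT0 => ?_⟩
  have hd : Φ.denom ≠ 0 := Φ.denom_ne_zero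
  have h7 : Φ.denom.rootMultiplicity T ≠ 0 := by
    rw [Ne, Polynomial.rootMultiplicity_eq_zero_iff]
    intro h
    exact hd (h hT0)
  have hT : T ≠ 0 := by
    rintro rfl
    exact h7 h5
  refine h3 T hT ?_
  by_contra hne
  have h8 := h6 T
  rw [Polynomial.rootMultiplicity_eq_zero (p := D) hne] at h8
  omega

/-- the Igusa zeta function of a polynomial with integral coefficients -/
theorem igusa_zetaQ' {V : Type} [Fintype V] (F : MvPolynomial V ℤ) (s : ℝ) :
    igusaZeta p F (s : ℂ) = zetaQ p (map (Int.castRingHom ℚ) F) (s : ℂ) := by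
  rw [igusaZeta_eq, zetaQ_eq]
  simp only [tau_N]

include hn hf hδ hNC h2 ha in
/-- **The poles of the Igusa zeta function** -/
theorem igusa_nc (b : Polynomial ℂ)
    (hb : IsBFunction (map (Int.castRingHom ℂ) (∏ t, f t ^ a t)) b)
    (Z : ℂ → ℂ) (hZ : MeromorphicOn Z Set.univ)
    (hZp : ∀ s : ℂ, 0 < s.re → Z s = igusaZeta p (∏ t, f t ^ a t) s) (s₀ : ℂ)
    (hs : meromorphicOrderAt Z s₀ < 0) : b.eval (s₀.re : ℂ) = 0 := by
  rw [castZ', castQ_prod] at hb
  simp only [castZ'] at hNC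
  exact mero_nc (p := p) hn (fun t => map (Int.castRingHom ℚ) (f t)) δ
    (fun t => (hf t).map _) hδ hNC h2 a ha b hb Z hZ (fun s hs => by
      rw [hZp s (by simpa using hs), igusa_zetaQ', castQ_prod]) s₀ hs

end Pool.Agent.U841.PA
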