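import Pool.Agent.U841.PA.Zeta

set_option autoImplicit false
set_option linter.unusedSectionVars false
set_option linter.unusedVariables false

/-! # The zeta functions of cones over `ℚ_p` -/

namespace Pool.Agent.U841.PA

open MeasureTheory MvPolynomial Pool.Agent.W427.SMC Pool.Agent.Y230.PT Pool.Agent.Y230.PS
open scoped ENNReal

attribute [local instance] msZ bsZ

variable {p : ℕ} [Fact p.Prime] {T : Type} [Fintype T]

/-- normal crossings over `ℚ_p`, away from the origin -/
def NCp {σ : Type} (f : T → MvPolynomial σ ℚ_[p]) : Prop :=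
  ∀ y : σ → ℚ_[p], y ≠ 0 → LinearIndependent ℚ_[p]
    fun t : {t // eval y (f t) = 0} => fun j : σ => eval y (pderiv j (f t.1))

variable {n : ℕ}

/-- the gradients at a point of a chart -/
theorem chart_liP (f : T → MvPolynomial (Fin (n + 1)) ℚ_[p]) (δ : T → ℕ)
    (hf : ∀ t, (f t).IsHomogeneous (δ t)) (hNC : NCp f) (i : Fin (n + 1))
    (c : Fin n → ℚ_[p]) (hc : ∀ k, c k ≠ 0) (K : ℕ) (g : T → MvPolynomial (Fin n) ℤ_[p])
    (hg : ∀ t, map (PadicInt.Coe.ringHom (p := p)) (g t) =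
      C ((p : ℚ_[p]) ^ K) * chart i c (f t))
    (x : Fin n → ℤ_[p]) : LinearIndependent ℚ_[p] (grads g x) := by
  classical
  set y : Fin (n + 1) → ℚ_[p] := Fin.insertNth i 1 (fun k => c k * inc p (x k)) with hy
  have hyi : y i = 1 := by rw [hy, Fin.insertNth_apply_same]
  have hpK := pK_ne p K
  -- the values
  have hev : ∀ t, ((eval x (g t) : ℤ_[p]) : ℚ_[p]) = (p : ℚ_[p]) ^ K * eval y (f t) := by
    intro t
    rw [map_eval_coe, hg, map_mul, eval_C, eval_chart]
  have hd : ∀ t l, ((eval x (pderiv l (g t)) : ℤ_[p]) : ℚ_[p]) =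
      (p : ℚ_[p]) ^ K * (c l * eval y (pderiv (i.succAbove l) (f t))) := by
    intro t l
    rw [map_eval_coe, ← pderiv_map, hg, Derivation.leibniz, pderiv_C, smul_zero, add_zero,
      smul_eq_mul, map_mul, eval_C, pderiv_chart, map_mul, eval_C, eval_chart]
  have hy0 : y ≠ 0 := by
    intro h
    have h1 := congrFun h i
    rw [hyi] at h1
    exact one_ne_zero h1
  have h1 := hNC _ hy0
  rw [Fintype.linearIndependent_iff] at h1 ⊢
  intro l hl t0
  have hS : ∀ t, eval x (g t) = 0 ↔ eval y (f t) = 0 := by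
    intro t
    rw [← PadicInt.coe_eq_zero, hev]
    exact ⟨fun h => (mul_eq_zero.1 h).resolve_left hpK, fun h => by rw [h, mul_zero]⟩
  -- the relation between the gradients
  have h2 : ∀ k : Fin n, ∑ t : {t // eval x (g t) = 0},
      l t * eval y (pderiv (i.succAbove k) (f t)) = 0 := by
    intro k
    have h3 := congrFun hl k
    rw [Finset.sum_apply, Pi.zero_apply] at h3
    have h4 : (p : ℚ_[p]) ^ K * c k * ∑ t : {t // eval x (g t) = 0},
      l t * eval y (pderiv (i.succAbove k) (f t)) = 0 := by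
      refine Eq.trans ?_ h3
      rw [Finset.mul_sum]
      refine Finset.sum_congr rfl fun t _ => ?_
      rw [Pi.smul_apply, smul_eq_mul, grads, hd]
      ring
    exact (mul_eq_zero.1 h4).resolve_left (mul_ne_zero hpK (hc k))
  have h5 : ∀ k : Fin (n + 1), ∑ t : {t // eval x (g t) = 0},
      l t * eval y (pderiv k (f t)) = 0 := by
    intro k
    induction k using Fin.succAboveCases i with
    | p k => exact h2 k
    | x =>
      have h6 : ∀ t : {t // eval x (g t) = 0}, eval y (pderiv i (f t)) =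
          -∑ k : Fin n, y (i.succAbove k) * eval y (pderiv (i.succAbove k) (f t)) := by
        intro t
        have h7 := euler_eval (f t) (δ t) (hf t) y
        have h8 : eval y (f t) = 0 := (hS t).1 t.2
        rw [h8, mul_zero, Fin.sum_univ_succAbove _ i, hyi, one_mul] at h7
        exact eq_neg_of_add_eq_zero_left h7
      simp only [h6, mul_neg, Finset.mul_sum]
      rw [Finset.sum_neg_distrib, Finset.sum_comm, neg_eq_zero]
      refine Finset.sum_eq_zero fun k _ => ?_
      have h9 := h2 k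
      refine Eq.trans ?_ (congrArg (fun z => y (i.succAbove k) * z) h9 |>.trans (mul_zero _))
      rw [Finset.mul_sum]
      exact Finset.sum_congr rfl fun t _ => by ring
  have h10 := h1 (fun t => l ⟨t.1, (hS t.1).2 t.2⟩) (by
    funext k
    rw [Finset.sum_apply, Pi.zero_apply]
    refine Eq.trans ?_ (h5 k)
    refine Fintype.sum_equiv (Equiv.subtypeEquivRight fun t => (hS t).symm) _ _ fun t => ?_
    rw [Pi.smul_apply, smul_eq_mul]
    rfl) ⟨t0.1, (hS t0.1).1 t0.2⟩
  exact h10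

open Classical in
/-- the zeta function in a chart -/
theorem FR_chartP (f : T → MvPolynomial (Fin (n + 1)) ℚ_[p]) (δ : T → ℕ)
    (hf : ∀ t, (f t).IsHomogeneous (δ t)) (hNC : NCp f) (a : T → ℕ) (i : Fin (n + 1))
    (c : Fin n → ℚ_[p]) (hc : ∀ k, c k ≠ 0) :
    FR p (fun T0 => if ∃ t, T0 ^ a t = (p : ℂ) then ⊤ else 0)
      (FF (scl c (fun _ : Fin 1 => dehK i (∏ t, f t ^ a t)))) := by
  obtain ⟨K, g, hg⟩ := exists_int fun t => chart i c (f t)
  set F := scl c (fun _ : Fin 1 => dehK i (∏ t, f t ^ a t)) with hF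
  have h1 := FR_rho g a (fun T0 => if ∃ t, T0 ^ a t = (p : ℂ) then ⊤ else 0) (fun x0 =>
    ⟨chart_liP f δ hf hNC i c hc K g hg x0, fun T0 hT0 => by
      by_cases h : ∃ t, T0 ^ a t = (p : ℂ)
      · rw [if_pos h]
        exact le_top
      · rw [if_neg h]
        push Not at h
        refine le_of_eq (Finset.sum_eq_zero fun t _ => if_neg (h t))⟩)
  refine (FR_scale (Measure.pi fun _ : Fin n => mu p) (sz F) (sz_nonneg F)
    (K * ∑ t, a t)).1 ?_
  have h2 : rho g a = fun x => ((p : ℝ)⁻¹) ^ (K * ∑ t, a t) * sz F x := by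
    funext x
    have h3 : sz F x = ‖eval (fun i => inc p (x i)) (chart i c (∏ t, f t ^ a t))‖ :=
      pi_norm_const (ι := Fin 1) (eval (fun i => inc p (x i)) (chart i c (∏ t, f t ^ a t)))
    rw [h3, map_prod, map_prod, norm_prod, rho, pow_mul, ← Finset.prod_pow_eq_pow_sum,
      ← Finset.prod_mul_distrib]
    refine Finset.prod_congr rfl fun t _ => ?_
    rw [map_pow, map_pow, norm_pow, ← mul_pow]
    congr 1
    rw [PadicInt.norm_def, map_eval_coe, hg, map_mul, eval_C, norm_mul, norm_pow, Padic.norm_p]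
  rw [← h2]
  exact h1

open Classical in
/-- **The zeta function of a cone over a divisor with normal crossings.** -/
theorem FR_ncP (f : T → MvPolynomial (Fin (n + 1)) ℚ_[p]) (δ : T → ℕ)
    (hf : ∀ t, (f t).IsHomogeneous (δ t)) (hNC : NCp f) (a : T → ℕ)
    (hd : 0 < ∑ t, a t * δ t) :
    FR p (fun T0 => if T0 ^ (∑ t, a t * δ t) = (p : ℂ) ^ (n + 1) ∨ ∃ t, T0 ^ a t = (p : ℂ)
      then ⊤ else 0) (FF (fun _ : Fin 1 => ∏ t, f t ^ a t)) := by
  have hh : (∏ t, f t ^ a t).IsHomogeneous (∑ t, a t * δ t) := by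
    refine IsHomogeneous.prod _ _ _ fun t _ => ?_
    rw [mul_comm]
    exact (hf t).pow _
  have h := FR_cone (p := p) (n := n) (fun _ : Fin 1 => ∏ t, f t ^ a t) (∑ t, a t * δ t) hd
    (fun _ => hh) (fun T0 => if ∃ t, T0 ^ a t = (p : ℂ) then ⊤ else 0)
    (fun T0 => if T0 ^ (∑ t, a t * δ t) = (p : ℂ) ^ (n + 1) ∨ ∃ t, T0 ^ a t = (p : ℂ)
      then ⊤ else 0) (fun T0 hT0 => ?_)
    (fun i c hc => FR_chartP f δ hf hNC a i c hc) (fun _ => 1) (fun _ => one_ne_zero)
  · rwa [scl_one] at h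
  · by_cases h1 : T0 ^ (∑ t, a t * δ t) = (p : ℂ) ^ (n + 1)
    · rw [if_pos (Or.inl h1)]
      exact le_top
    · by_cases h2 : ∃ t, T0 ^ a t = (p : ℂ)
      · rw [if_pos (Or.inr h2)]
        exact le_top
      · rw [if_neg h1, if_neg h2, if_neg (not_or.2 ⟨h1, h2⟩), add_zero]

open Classical in
/-- the same, for coefficients in `ℤ_p` -/
theorem FR_ncZ (g : T → MvPolynomial (Fin (n + 1)) ℤ_[p]) (δ : T → ℕ)
    (hf : ∀ t, (g t).IsHomogeneous (δ t))
    (hNC : NCp fun t => map (PadicInt.Coe.ringHom (p := p)) (g t)) (a : T → ℕ)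
    (hd : 0 < ∑ t, a t * δ t) :
    FR p (fun T0 => if T0 ^ (∑ t, a t * δ t) = (p : ℂ) ^ (n + 1) ∨ ∃ t, T0 ^ a t = (p : ℂ)
      then ⊤ else 0) (FZ (mG p (Fin (n + 1))) (rho g a)) := by
  have h := FR_ncP (fun t => map (PadicInt.Coe.ringHom (p := p)) (g t)) δ
    (fun t => (hf t).map _) hNC a hd
  have h2 : rho g a =
      sz (fun _ : Fin 1 => ∏ t, map (PadicInt.Coe.ringHom (p := p)) (g t) ^ a t) := by
    funext x
    have h3 : sz (fun _ : Fin 1 => ∏ t, map (PadicInt.Coe.ringHom (p := p)) (g t) ^ a t) x =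
        ‖eval (fun i => inc p (x i)) (∏ t, map (PadicInt.Coe.ringHom (p := p)) (g t) ^ a t)‖ :=
      pi_norm_const (ι := Fin 1) (eval (fun i => inc p (x i))
        (∏ t, map (PadicInt.Coe.ringHom (p := p)) (g t) ^ a t))
    rw [h3, map_prod, norm_prod, rho]
    refine Finset.prod_congr rfl fun t _ => ?_
    rw [map_pow, norm_pow, PadicInt.norm_def, map_eval_coe]
  rw [h2]
  exact h

end Pool.Agent.U841.PA
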