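import Pool.Agent.U841.PA.Comp3
import Pool.Agent.U841.PA.ConeP

set_option autoImplicit false
set_option linter.unusedSectionVars false
set_option linter.unusedVariables false

/-! # From small balls to `ℤ_p ^ n` -/

namespace Pool.Agent.U841.PA

open MeasureTheory MvPolynomial Pool.Agent.W427.SMC Pool.Agent.Y230.PT Pool.Agent.Y230.PS
open scoped ENNReal

attribute [local instance] msZ bsZ

variable {p : ℕ} [Fact p.Prime] {σ : Type} [Fintype σ] [DecidableEq σ] {T : Type} [Fintype T]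

theorem FZ_IR (f : T → MvPolynomial σ ℤ_[p]) (a : T → ℕ) (x : σ → ℤ_[p]) (N : ℕ) (s : ℝ) :
    FZ (mG p σ) (fun y => rho f a (x + sc N y)) s = (IR f a x N s : ℂ) :=
  FZ_eq _ _ (fun y => rho_nonneg f a _)
    ((rho_cont f a).comp (continuous_const.add (sc_cont N))).measurable s

theorem FZ_IR0 (f : T → MvPolynomial σ ℤ_[p]) (a : T → ℕ) (s : ℝ) :
    FZ (mG p σ) (rho f a) s = (IR f a 0 0 s : ℂ) := by
  rw [← FZ_IR]
  congr 1
  funext y
  congr 1
  funext i
  simp [sc]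

/-- divisibility -/
theorem exists_sc (x : σ → ℤ_[p]) (N : ℕ) (h : ‖x‖ ≤ (p : ℝ)⁻¹ ^ N) : ∃ z, x = sc N z := by
  have h1 : ∀ i, ∃ z : ℤ_[p], x i = (p : ℤ_[p]) ^ N * z := by
    intro i
    have h2 : ‖x i‖ ≤ (p : ℝ) ^ (-(N : ℤ)) := by
      rw [zpow_neg, zpow_natCast, ← inv_pow]
      exact (norm_le_pi_norm x i).trans h
    rw [PadicInt.norm_le_pow_iff_mem_span_pow, Ideal.mem_span_singleton] at h2
    exact h2
  choose z hz using h1
  exact ⟨z, funext hz⟩

/-- **Globalization.** -/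
theorem FR_bis (f : T → MvPolynomial σ ℤ_[p]) (a : T → ℕ) (m : ℂ → ℕ∞)
    (h : ∀ x0, ∃ N1 : ℕ, ∀ N, N1 ≤ N → FR p m (fun s => (IR f a x0 N s : ℂ))) :
    FR p m (FZ (mG p σ) (rho f a)) := by
  classical
  have := fin_quot (p := p) (σ := σ) 1
  have _ := Fintype.ofFinite ((σ → ℤ_[p]) ⧸ (scHom p σ 1).range)
  have hstep : ∀ (x : σ → ℤ_[p]) (N : ℕ), ¬ FR p m (fun s => (IR f a x N s : ℂ)) →
      ∃ z, ¬ FR p m (fun s => (IR f a (x + sc N z) (N + 1) s : ℂ)) := by
    intro x N hbad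
    by_contra hcon
    push Not at hcon
    apply hbad
    have h4 : FR p m
        (fun s => ((Fintype.card ((σ → ℤ_[p]) ⧸ (scHom p σ 1).range) : ℝ)⁻¹ : ℂ) *
          ∑ q : (σ → ℤ_[p]) ⧸ (scHom p σ 1).range, (IR f a (x + sc N q.out) (N + 1) s : ℂ)) :=
      FR.mul0 (F := fun _ => ((Fintype.card ((σ → ℤ_[p]) ⧸ (scHom p σ 1).range) : ℝ)⁻¹ : ℂ))
        (fun T0 _ => Reg.const _) (FR.sum Finset.univ _ fun q _ => hcon q.out)
    refine h4.congr fun s hs => ?_
    rw [IR_avg f a x N 1 s hs]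
    push_cast
    rfl
  by_contra hbad
  have hbad0 : ¬ FR p m (fun s => (IR f a 0 0 s : ℂ)) := fun h1 => hbad
    (h1.congr fun s _ => (FZ_IR0 f a s).symm)
  choose z hz using hstep
  -- the sequence of balls
  let X : (k : ℕ) → {x : σ → ℤ_[p] // ¬ FR p m (fun s => (IR f a x k s : ℂ))} := fun k =>
    Nat.rec (motive := fun k => {x : σ → ℤ_[p] // ¬ FR p m (fun s => (IR f a x k s : ℂ))})
      ⟨0, hbad0⟩ (fun k x => ⟨x.1 + sc k (z x.1 k x.2), hz x.1 k x.2⟩) k
  have hX : ∀ k, (X (k + 1)).1 = (X k).1 + sc k (z (X k).1 k (X k).2) := fun _ => rfl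
  obtain ⟨x, hx⟩ := IsCompact.nonempty_iInter_of_sequence_nonempty_isCompact_isClosed
    (fun k => Metric.closedBall (X k).1 ((p : ℝ)⁻¹ ^ k)) (fun k y hy => by
      rw [Metric.mem_closedBall, dist_eq_norm] at hy ⊢
      have h1 : y - (X k).1 = (y - (X (k + 1)).1) + sc k (z (X k).1 k (X k).2) := by
        rw [hX]
        abel
      rw [h1]
      exact normG_add _ _ _ (hy.trans (pinv_anti p (Nat.le_succ k))) (sc_norm' k _))
    (fun k => ⟨_, Metric.mem_closedBall_self (pinv_pos p k).le⟩)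
    (Metric.isClosed_closedBall.isCompact) (fun k => Metric.isClosed_closedBall)
  rw [Set.mem_iInter] at hx
  obtain ⟨N1, hN1⟩ := h x
  have h2 := hx N1
  rw [Metric.mem_closedBall, dist_eq_norm] at h2
  obtain ⟨w, hw⟩ := exists_sc _ _ h2
  have h3 : x = (X N1).1 + sc N1 w := by
    rw [← hw]
    abel
  refine (X N1).2 ((hN1 N1 le_rfl).congr fun s _ => ?_)
  rw [h3, IR_shift]

/-- translation of polynomials -/
noncomputable def shZ (x : σ → ℤ_[p]) : MvPolynomial σ ℤ_[p] →ₐ[ℤ_[p]] MvPolynomial σ ℤ_[p] :=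
  aeval fun i => X i + C (x i)

theorem eval_shZ (x y : σ → ℤ_[p]) (f : MvPolynomial σ ℤ_[p]) :
    eval y (shZ x f) = eval (x + y) f := by
  have h : (eval y).comp (shZ x : MvPolynomial σ ℤ_[p] →+* MvPolynomial σ ℤ_[p]) =
      eval (x + y) := by
    refine ringHom_ext (fun c => ?_) fun i => ?_
    · change eval y (shZ x (C c)) = _
      rw [shZ, aeval_C, algebraMap_eq, eval_C, eval_C]
    · change eval y (shZ x (X i)) = _
      rw [shZ, aeval_X, map_add, eval_X, eval_C, eval_X, Pi.add_apply, add_comm]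
  exact congrArg (fun φ => φ f) h

theorem IR_shZ (f : T → MvPolynomial σ ℤ_[p]) (a : T → ℕ) (x : σ → ℤ_[p]) (N : ℕ) (s : ℝ) :
    IR f a x N s = IR (fun t => shZ x (f t)) a 0 N s := by
  unfold IR rho
  simp only [eval_shZ, zero_add]

open Classical in
/-- **A point at which the initial forms have normal crossings.** -/
theorem FR_conept [DecidableEq T] {n : ℕ} (f : T → MvPolynomial (Fin (n + 1)) ℤ_[p]) (a δ : T → ℕ)
    (x0 : Fin (n + 1) → ℤ_[p])
    (hq : ∀ t j, j < δ t → homogeneousComponent j (shZ x0 (f t)) = 0)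
    (hNC : NCp fun t => map (PadicInt.Coe.ringHom (p := p))
      (homogeneousComponent (δ t) (shZ x0 (f t)))) (hd : 0 < ∑ t, a t * δ t) :
    ∃ N1 : ℕ, ∀ N, N1 ≤ N →
      FR p (fun T0 => if T0 ^ (∑ t, a t * δ t) = (p : ℂ) ^ (n + 1) ∨ ∃ t, T0 ^ a t = (p : ℂ)
        then ⊤ else 0) (fun s => (IR f a x0 N s : ℂ)) := by
  have hli : ∀ y : Fin (n + 1) → ℤ_[p], ‖y‖ = 1 → LinearIndependent ℚ_[p]
      (grads (fun t => homogeneousComponent (δ t) (shZ x0 (f t))) y) := by
    intro y hy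
    have hy0 : (fun i => inc p (y i)) ≠ 0 := by
      intro h
      have h1 : y = 0 := by
        funext i
        have h2 := congrFun h i
        exact Subtype.ext h2
      rw [h1, norm_zero] at hy
      exact zero_ne_one hy
    have h1 := hNC _ hy0
    rw [Fintype.linearIndependent_iff] at h1 ⊢
    intro l hl t0
    have hS : ∀ t, eval y (homogeneousComponent (δ t) (shZ x0 (f t))) = 0 ↔
        eval (fun i => inc p (y i)) (map (PadicInt.Coe.ringHom (p := p))
          (homogeneousComponent (δ t) (shZ x0 (f t)))) = 0 := by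
      intro t
      rw [← map_eval_coe, PadicInt.coe_eq_zero]
    exact h1 (fun t => l ⟨t.1, (hS t.1).2 t.2⟩) (by
      refine Eq.trans ?_ hl
      refine Fintype.sum_equiv (Equiv.subtypeEquivRight fun t => (hS t).symm) _ _ fun t => ?_
      funext j
      rw [Pi.smul_apply, Pi.smul_apply]
      congr 1
      unfold grads
      rw [map_eval_coe, pderiv_map]
      rfl) ⟨t0.1, (hS t0.1).1 t0.2⟩
  obtain ⟨K, hK⟩ := cone_comp (fun t => shZ x0 (f t)) a δ hq hli
  refine ⟨K, fun N hN => ?_⟩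
  have h1 := FR_ncZ (p := p) (fun t => homogeneousComponent (δ t) (shZ x0 (f t))) δ
    (fun t => homogeneousComponent_isHomogeneous _ _) hNC a hd
  have hp0 : (p : ℚ_[p]) ^ (N * ∑ t, a t * δ t) ≠ 0 := pK_ne p _
  have h2 := FR.mul0 (F := fun s => ((Pool.Agent.Y230.PT.N p s
    ((p : ℚ_[p]) ^ (N * ∑ t, a t * δ t))).toReal : ℂ)) (fun T0 hT0 => reg_N hT0 _ hp0) h1
  refine h2.congr fun s hs => ?_
  rw [IR_shZ, hK N hN s hs, FZ_IR0, N_toReal, norm_pow, Padic.norm_p]
  push_cast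
  rfl

end Pool.Agent.U841.PA
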