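import Pool.Agent.U841.PA.Haar

set_option autoImplicit false
set_option linter.unusedSectionVars false
set_option linter.unusedVariables false

/-! # Isometries of `ℤ_p ^ n` preserve the Haar measure -/

namespace Pool.Agent.U841.PA

open MeasureTheory Pool.Agent.W427.SMC TopologicalSpace
open scoped ENNReal

attribute [local instance] msZ bsZ

variable {p : ℕ} [Fact p.Prime] {σ : Type} [Fintype σ]

/-- the balls -/
def Bl (p : ℕ) [Fact p.Prime] (σ : Type) [Fintype σ] : Set (Set (σ → ℤ_[p])) :=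
  {s | ∃ (x : σ → ℤ_[p]) (k : ℕ), s = Metric.closedBall x ((p : ℝ)⁻¹ ^ k)}

theorem ultra : IsUltrametricDist (σ → ℤ_[p]) := by
  infer_instance

theorem pinv_pos (p : ℕ) [Fact p.Prime] (k : ℕ) : (0 : ℝ) < (p : ℝ)⁻¹ ^ k :=
  pow_pos (inv_pos.2 (by exact_mod_cast (Fact.out : p.Prime).pos)) k

theorem pinv_anti (p : ℕ) [Fact p.Prime] {k l : ℕ} (h : k ≤ l) : (p : ℝ)⁻¹ ^ l ≤ (p : ℝ)⁻¹ ^ k :=
  pow_le_pow_of_le_one (inv_nonneg.2 (Nat.cast_nonneg _))
    (inv_le_one_of_one_le₀ (by exact_mod_cast (Fact.out : p.Prime).one_le)) h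

theorem bl_pi : IsPiSystem (Bl p σ) := by
  rintro _ ⟨x, k, rfl⟩ _ ⟨y, l, rfl⟩ ⟨z, hz1, hz2⟩
  have h1 := IsUltrametricDist.closedBall_eq_of_mem hz1
  have h2 := IsUltrametricDist.closedBall_eq_of_mem hz2
  rw [h1, h2]
  rcases le_total k l with h | h
  · refine ⟨z, l, ?_⟩
    rw [Set.inter_eq_right]
    exact Metric.closedBall_subset_closedBall (pinv_anti p h)
  · refine ⟨z, k, ?_⟩
    rw [Set.inter_eq_left]
    exact Metric.closedBall_subset_closedBall (pinv_anti p h)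

theorem bl_open (x : σ → ℤ_[p]) (k : ℕ) : IsOpen (Metric.closedBall x ((p : ℝ)⁻¹ ^ k)) :=
  IsUltrametricDist.isOpen_closedBall x (pinv_pos p k).ne'

theorem bl_basis : IsTopologicalBasis (Bl p σ) := by
  refine isTopologicalBasis_of_isOpen_of_nhds ?_ ?_
  · rintro _ ⟨x, k, rfl⟩
    exact bl_open x k
  · intro a u ha hu
    obtain ⟨ε, hε, hεu⟩ := Metric.isOpen_iff.1 hu a ha
    obtain ⟨k, hk⟩ := exists_pow_lt_of_lt_one hε
      (inv_lt_one_of_one_lt₀ (by exact_mod_cast (Fact.out : p.Prime).one_lt : (1 : ℝ) < p))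
    exact ⟨_, ⟨a, k, rfl⟩, Metric.mem_closedBall_self (pinv_pos p k).le,
      (Metric.closedBall_subset_ball hk).trans hεu⟩

theorem bl_gen : (MeasurableSpace.pi : MeasurableSpace (σ → ℤ_[p])) =
    MeasurableSpace.generateFrom (Bl p σ) := by
  have h1 : (MeasurableSpace.pi : MeasurableSpace (σ → ℤ_[p])) = borel (σ → ℤ_[p]) :=
    (Pi.borelSpace).measurable_eq
  rw [h1]
  exact bl_basis.borel_eq_generateFrom

theorem mG_ball (x y : σ → ℤ_[p]) (k : ℕ) : mG p σ (Metric.closedBall x ((p : ℝ)⁻¹ ^ k)) =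
    mG p σ (Metric.closedBall y ((p : ℝ)⁻¹ ^ k)) := by
  have h1 : (fun z => (x - y) + z) ⁻¹' (Metric.closedBall x ((p : ℝ)⁻¹ ^ k)) =
      Metric.closedBall y ((p : ℝ)⁻¹ ^ k) := by
    ext z
    rw [Set.mem_preimage, Metric.mem_closedBall, Metric.mem_closedBall, dist_eq_norm, dist_eq_norm]
    have : x - y + z - x = z - y := by abel
    rw [this]
  rw [← h1, measure_preimage_add]

/-- **Isometries preserve the measure.** -/
theorem iso_measure (Ψ : (σ → ℤ_[p]) → (σ → ℤ_[p])) (h1 : ∀ x y, ‖Ψ x - Ψ y‖ = ‖x - y‖)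
    (h2 : Function.Surjective Ψ) : Measure.map Ψ (mG p σ) = mG p σ := by
  have hiso : Isometry Ψ := Isometry.of_dist_eq fun x y => by
    rw [dist_eq_norm, dist_eq_norm, h1]
  have hmeas : Measurable Ψ := hiso.continuous.measurable
  have _ : IsProbabilityMeasure (Measure.map Ψ (mG p σ)) :=
    Measure.isProbabilityMeasure_map hmeas.aemeasurable
  refine ext_of_generate_finite (Bl p σ) bl_gen bl_pi ?_ ?_
  · rintro _ ⟨z, k, rfl⟩
    obtain ⟨x, rfl⟩ := h2 z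
    rw [Measure.map_apply hmeas (bl_open _ _).measurableSet]
    have h3 : Ψ ⁻¹' (Metric.closedBall (Ψ x) ((p : ℝ)⁻¹ ^ k)) =
        Metric.closedBall x ((p : ℝ)⁻¹ ^ k) := hiso.preimage_closedBall x _
    rw [h3]
    exact mG_ball _ _ _
  · rw [measure_univ, measure_univ]

theorem iso_integral (Ψ : (σ → ℤ_[p]) → (σ → ℤ_[p])) (h1 : ∀ x y, ‖Ψ x - Ψ y‖ = ‖x - y‖)
    (h2 : Function.Surjective Ψ) (φ : (σ → ℤ_[p]) → ℝ) (hφ : Continuous φ) :
    ∫ x, φ (Ψ x) ∂(mG p σ) = ∫ x, φ x ∂(mG p σ) := by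
  have hiso : Isometry Ψ := Isometry.of_dist_eq fun x y => by
    rw [dist_eq_norm, dist_eq_norm, h1]
  have h3 := integral_map (μ := mG p σ) hiso.continuous.measurable.aemeasurable
    (f := φ) hφ.aestronglyMeasurable
  rw [iso_measure Ψ h1 h2] at h3
  exact h3.symm

/-- a map which is close to the identity -/
theorem iso_of_close (Ψ : (σ → ℤ_[p]) → (σ → ℤ_[p]))
    (h : ∀ x y, ‖(Ψ x - Ψ y) - (x - y)‖ ≤ (p : ℝ)⁻¹ * ‖x - y‖) :
    (∀ x y, ‖Ψ x - Ψ y‖ = ‖x - y‖) ∧ Function.Surjective Ψ := by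
  have hp1 : (p : ℝ)⁻¹ < 1 :=
    inv_lt_one_of_one_lt₀ (by exact_mod_cast (Fact.out : p.Prime).one_lt)
  have hp0 : 0 ≤ (p : ℝ)⁻¹ := inv_nonneg.2 (Nat.cast_nonneg _)
  refine ⟨fun x y => ?_, fun z => ?_⟩
  · by_cases hxy : x = y
    · rw [hxy, sub_self, sub_self]
    · have hpos : 0 < ‖x - y‖ := norm_pos_iff.2 (sub_ne_zero.2 hxy)
      have h1 : ‖(Ψ x - Ψ y) - (x - y)‖ < ‖x - y‖ :=
        (h x y).trans_lt (by nlinarith)
      have h2 : Ψ x - Ψ y = ((Ψ x - Ψ y) - (x - y)) + (x - y) := by abel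
      rw [h2]
      have := ultra (p := p) (σ := σ)
      rw [IsUltrametricDist.norm_add_eq_max_of_norm_ne_norm h1.ne, max_eq_right h1.le]
  · let G : (σ → ℤ_[p]) → (σ → ℤ_[p]) := fun y => z - (Ψ y - y)
    have hG : ContractingWith (⟨(p : ℝ)⁻¹, hp0⟩ : NNReal) G := by
      refine ⟨by exact_mod_cast hp1, ?_⟩
      refine LipschitzWith.of_dist_le_mul fun x y => ?_
      rw [dist_eq_norm, dist_eq_norm]
      have h1 : G x - G y = -((Ψ x - Ψ y) - (x - y)) := by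
        change z - (Ψ x - x) - (z - (Ψ y - y)) = _
        abel
      rw [h1, norm_neg]
      exact h x y
    have _ : Nonempty (σ → ℤ_[p]) := ⟨0⟩
    refine ⟨ContractingWith.fixedPoint G hG, ?_⟩
    have h2 : G (ContractingWith.fixedPoint G hG) = _ := hG.fixedPoint_isFixedPt
    change z - (Ψ _ - _) = _ at h2
    have h3 : z = Ψ (ContractingWith.fixedPoint G hG) := by
      have h4 := sub_eq_iff_eq_add.1 h2
      rw [h4]
      abel
    exact h3.symm

end Pool.Agent.U841.PA
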