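import Pool.Agent.U841.PA.Lin
import Pool.Agent.U841.PA.Iso

set_option autoImplicit false
set_option linter.unusedSectionVars false
set_option linter.unusedVariables false

/-! # Local coordinates over `ℤ_p` -/

namespace Pool.Agent.U841.PA

open MeasureTheory Pool.Agent.W427.SMC MvPolynomial

attribute [local instance] msZ bsZ

variable {p : ℕ} [Fact p.Prime] {σ : Type} [Fintype σ] [DecidableEq σ]

/-- the multiplication by `p ^ N` -/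
noncomputable def sc (N : ℕ) (y : σ → ℤ_[p]) : σ → ℤ_[p] := fun i => (p : ℤ_[p]) ^ N * y i

theorem sc_norm (N : ℕ) (y : σ → ℤ_[p]) : ‖sc N y‖ ≤ (p : ℝ)⁻¹ ^ N * ‖y‖ := by
  refine (pi_norm_le_iff_of_nonneg (by positivity)).2 fun i => ?_
  rw [sc, norm_mul, norm_pow, PadicInt.norm_p]
  gcongr
  exact norm_le_pi_norm y i

theorem norm_le_oneG (y : σ → ℤ_[p]) : ‖y‖ ≤ 1 :=
  (pi_norm_le_iff_of_nonneg zero_le_one).2 fun i => PadicInt.norm_le_one _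

theorem sc_norm' (N : ℕ) (y : σ → ℤ_[p]) : ‖sc N y‖ ≤ (p : ℝ)⁻¹ ^ N := by
  refine (sc_norm N y).trans ?_
  calc (p : ℝ)⁻¹ ^ N * ‖y‖ ≤ (p : ℝ)⁻¹ ^ N * 1 := by gcongr; exact norm_le_oneG y
    _ = _ := mul_one _

theorem sc_sub (N : ℕ) (y y' : σ → ℤ_[p]) : sc N y - sc N y' = sc N (y - y') := by
  funext i
  simp only [sc, Pi.sub_apply, mul_sub]

theorem normG_add (x y : σ → ℤ_[p]) (C : ℝ) (hx : ‖x‖ ≤ C) (hy : ‖y‖ ≤ C) : ‖x + y‖ ≤ C := by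
  refine (pi_norm_le_iff_of_nonneg ((norm_nonneg _).trans hx)).2 fun i => ?_
  exact norm_add_le_of _ _ _ ((norm_le_pi_norm x i).trans hx) ((norm_le_pi_norm y i).trans hy)

/-- **Local coordinates.** -/
theorem exists_chart {κ : Type} (f : κ → MvPolynomial σ ℤ_[p]) (x0 : σ → ℤ_[p])
    (W : Matrix σ σ ℚ_[p]) (hW : IsUnit W) (e : κ → σ) (he : Function.Injective e)
    (hWv : ∀ t j, W (e t) j = ((eval x0 (pderiv j (f t)) : ℤ_[p]) : ℚ_[p])) :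
    ∃ N0 : ℕ, ∀ (N1 : ℕ), N0 ≤ N1 → ∀ x1 : σ → ℤ_[p], ‖x1 - x0‖ ≤ (p : ℝ)⁻¹ ^ N1 →
      ∀ N : ℕ, N1 ≤ N →
      ∃ Ψ : (σ → ℤ_[p]) → (σ → ℤ_[p]), (∀ x y, ‖Ψ x - Ψ y‖ = ‖x - y‖) ∧ Function.Surjective Ψ ∧
        ∀ t y, ((eval (x1 + sc N y) (f t) : ℤ_[p]) : ℚ_[p]) = ((eval x1 (f t) : ℤ_[p]) : ℚ_[p]) +
          (p : ℚ_[p]) ^ N * ∑ j, W (e t) j * (Ψ y j : ℚ_[p]) := by
  classical
  obtain ⟨k0, hk0⟩ := exists_bound (fun i j => W⁻¹ i j)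
  refine ⟨k0 + 1, fun N1 hN1 x1 hx1 N hN => ?_⟩
  have hWi : W * W⁻¹ = 1 := Matrix.mul_nonsing_inv W ((Matrix.isUnit_iff_isUnit_det W).1 hW)
  have hWi' : ∀ s l, ∑ i, W s i * W⁻¹ i l = if s = l then 1 else 0 := by
    intro s l
    have h5 := congrFun (congrFun hWi s) l
    rw [Matrix.mul_apply, Matrix.one_apply] at h5
    exact h5
  let Φ : (σ → ℤ_[p]) → σ → ℚ_[p] := fun y s =>
    if h : ∃ t, e t = s then ((p : ℚ_[p]) ^ N)⁻¹ *
      (((eval (x1 + sc N y) (f h.choose) : ℤ_[p]) : ℚ_[p]) -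
        ((eval x1 (f h.choose) : ℤ_[p]) : ℚ_[p]))
    else ∑ j, W s j * (y j : ℚ_[p])
  have hΦe : ∀ y t, Φ y (e t) = ((p : ℚ_[p]) ^ N)⁻¹ *
      (((eval (x1 + sc N y) (f t) : ℤ_[p]) : ℚ_[p]) - ((eval x1 (f t) : ℤ_[p]) : ℚ_[p])) := by
    intro y t
    have h : ∃ t', e t' = e t := ⟨t, rfl⟩
    have h1 : h.choose = t := he h.choose_spec
    change dite _ _ _ = _
    rw [dif_pos h, h1]
  have hsc0 : sc N (0 : σ → ℤ_[p]) = 0 := by
    funext i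
    simp [sc]
  have hΦ0 : ∀ s, Φ 0 s = 0 := by
    intro s
    change dite _ _ _ = _
    split_ifs with h
    · rw [hsc0, add_zero, sub_self, mul_zero]
    · simp
  have hA : ∀ y y' s, ‖(Φ y s - Φ y' s) - ∑ j, W s j * ((y j : ℚ_[p]) - (y' j : ℚ_[p]))‖ ≤
      (p : ℝ)⁻¹ ^ N1 * ‖y - y'‖ := by
    intro y y' s
    by_cases h : ∃ t, e t = s
    · obtain ⟨t, rfl⟩ := h
      rw [hΦe, hΦe]
      have h1 : x1 + sc N y = (x1 + sc N y') + sc N (y - y') := by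
        rw [← sc_sub]; abel
      have h2 := tay2 (f t) x0 (x1 + sc N y') (sc N (y - y')) ((p : ℝ)⁻¹ ^ N1)
        ((sc_norm' N _).trans (pinv_anti p hN)) (by
          have : x1 + sc N y' - x0 = (x1 - x0) + sc N y' := by abel
          rw [this]
          exact normG_add _ _ _ hx1 ((sc_norm' N _).trans (pinv_anti p hN)))
      rw [← h1] at h2
      have h3 : (((p : ℚ_[p]) ^ N)⁻¹ * (((eval (x1 + sc N y) (f t) : ℤ_[p]) : ℚ_[p]) -
          ((eval x1 (f t) : ℤ_[p]) : ℚ_[p])) - ((p : ℚ_[p]) ^ N)⁻¹ *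
          (((eval (x1 + sc N y') (f t) : ℤ_[p]) : ℚ_[p]) - ((eval x1 (f t) : ℤ_[p]) : ℚ_[p]))) -
          ∑ j, W (e t) j * ((y j : ℚ_[p]) - (y' j : ℚ_[p])) =
          ((p : ℚ_[p]) ^ N)⁻¹ * (((eval (x1 + sc N y) (f t) - eval (x1 + sc N y') (f t) -
            ∑ j, sc N (y - y') j * eval x0 (pderiv j (f t)) : ℤ_[p])) : ℚ_[p]) := by
        rw [PadicInt.coe_sub, PadicInt.coe_sub, PadicInt.coe_sum]
        have h4 : ∑ j, W (e t) j * ((y j : ℚ_[p]) - (y' j : ℚ_[p])) = ((p : ℚ_[p]) ^ N)⁻¹ *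
            ∑ j, ((sc N (y - y') j * eval x0 (pderiv j (f t)) : ℤ_[p]) : ℚ_[p]) := by
          rw [Finset.mul_sum]
          refine Finset.sum_congr rfl fun j _ => ?_
          rw [hWv, sc, PadicInt.coe_mul, PadicInt.coe_mul, PadicInt.coe_pow, PadicInt.coe_natCast,
            Pi.sub_apply, PadicInt.coe_sub]
          have := pK_ne p N
          field_simp
        rw [h4]
        ring
      rw [h3, norm_mul, norm_inv, norm_pow, Padic.norm_p]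
      have h5 : ‖(((eval (x1 + sc N y) (f t) - eval (x1 + sc N y') (f t) -
            ∑ j, sc N (y - y') j * eval x0 (pderiv j (f t)) : ℤ_[p])) : ℚ_[p])‖ ≤
          (p : ℝ)⁻¹ ^ N * ‖y - y'‖ * (p : ℝ)⁻¹ ^ N1 := by
        refine le_trans (le_of_eq PadicInt.norm_def.symm) (h2.trans ?_)
        have := pinv_pos p N1
        gcongr
        exact sc_norm N _
      have h6 := pinv_pos p N
      calc ((p : ℝ)⁻¹ ^ N)⁻¹ * _ ≤ ((p : ℝ)⁻¹ ^ N)⁻¹ * ((p : ℝ)⁻¹ ^ N * ‖y - y'‖ * (p : ℝ)⁻¹ ^ N1) := by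
            gcongr
        _ = (p : ℝ)⁻¹ ^ N1 * ‖y - y'‖ := by
          rw [mul_assoc, ← mul_assoc, inv_mul_cancel₀ h6.ne', one_mul, mul_comm]
    · have h1 : ∀ y, Φ y s = ∑ j, W s j * (y j : ℚ_[p]) := by
        intro y
        change dite _ _ _ = _
        rw [dif_neg h]
      rw [h1, h1, ← Finset.sum_sub_distrib, ← Finset.sum_sub_distrib]
      have h2 : ∑ j, (W s j * (y j : ℚ_[p]) - W s j * (y' j : ℚ_[p]) -
          W s j * ((y j : ℚ_[p]) - (y' j : ℚ_[p]))) = 0 :=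
        Finset.sum_eq_zero fun j _ => by ring
      rw [h2, norm_zero]
      have := pinv_pos p N1
      positivity
  let E : (σ → ℤ_[p]) → σ → ℚ_[p] := fun y i =>
    ∑ s, W⁻¹ i s * (Φ y s - ∑ j, W s j * (y j : ℚ_[p]))
  have hE : ∀ y y' i, ‖E y i - E y' i‖ ≤ (p : ℝ)⁻¹ * ‖y - y'‖ := by
    intro y y' i
    have h1 : E y i - E y' i = ∑ s, W⁻¹ i s *
        ((Φ y s - Φ y' s) - ∑ j, W s j * ((y j : ℚ_[p]) - (y' j : ℚ_[p]))) := by
      change ∑ s, W⁻¹ i s * (Φ y s - ∑ j, W s j * (y j : ℚ_[p])) -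
        ∑ s, W⁻¹ i s * (Φ y' s - ∑ j, W s j * (y' j : ℚ_[p])) = _
      rw [← Finset.sum_sub_distrib]
      refine Finset.sum_congr rfl fun s _ => ?_
      simp only [mul_sub, Finset.sum_sub_distrib]
      ring
    rw [h1]
    refine norm_sum_le_ofQ _ _ _ (by positivity) fun s _ => ?_
    have h2 := hk0 i s
    rw [norm_mul, norm_pow, Padic.norm_p] at h2
    have h3 := hA y y' s
    have h4 : (p : ℝ)⁻¹ ^ N1 ≤ (p : ℝ)⁻¹ ^ (k0 + 1) := pinv_anti p hN1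
    rw [norm_mul]
    calc ‖W⁻¹ i s‖ * _ ≤ ‖W⁻¹ i s‖ * ((p : ℝ)⁻¹ ^ N1 * ‖y - y'‖) := by gcongr
      _ ≤ ‖W⁻¹ i s‖ * ((p : ℝ)⁻¹ ^ (k0 + 1) * ‖y - y'‖) := by gcongr
      _ = ((p : ℝ)⁻¹ ^ k0 * ‖W⁻¹ i s‖) * ((p : ℝ)⁻¹ * ‖y - y'‖) := by ring
      _ ≤ 1 * ((p : ℝ)⁻¹ * ‖y - y'‖) := by gcongr
      _ = _ := one_mul _
  have hE0 : ∀ i, E 0 i = 0 := by
    intro i
    change ∑ s, W⁻¹ i s * (Φ 0 s - ∑ j, W s j * (((0 : σ → ℤ_[p]) j : ℤ_[p]) : ℚ_[p])) = 0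
    refine Finset.sum_eq_zero fun s _ => ?_
    rw [hΦ0]
    simp
  have hp1 : (p : ℝ)⁻¹ ≤ 1 :=
    inv_le_one_of_one_le₀ (by exact_mod_cast (Fact.out : p.Prime).one_le)
  have hE1 : ∀ y i, ‖E y i‖ ≤ 1 := by
    intro y i
    have h1 := hE y 0 i
    rw [hE0, sub_zero, sub_zero] at h1
    refine h1.trans ?_
    have := norm_le_oneG y
    have h0 : (0 : ℝ) ≤ (p : ℝ)⁻¹ := by positivity
    nlinarith [norm_nonneg y]
  let Ψ : (σ → ℤ_[p]) → (σ → ℤ_[p]) := fun y i => y i + ⟨E y i, hE1 y i⟩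
  have hΨ : ∀ y i, ((Ψ y i : ℤ_[p]) : ℚ_[p]) = (y i : ℚ_[p]) + E y i := fun y i =>
    PadicInt.coe_add _ _
  obtain ⟨hiso, hsurj⟩ := iso_of_close Ψ (fun x y => by
    refine (pi_norm_le_iff_of_nonneg (by positivity)).2 fun i => ?_
    have h1 : ((Ψ x - Ψ y) - (x - y)) i = Ψ x i - Ψ y i - (x i - y i) := rfl
    rw [h1, PadicInt.norm_def]
    have h2 : ((Ψ x i - Ψ y i - (x i - y i) : ℤ_[p]) : ℚ_[p]) = E x i - E y i := by
      rw [PadicInt.coe_sub, PadicInt.coe_sub, PadicInt.coe_sub, hΨ, hΨ]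
      ring
    rw [h2]
    exact hE x y i)
  refine ⟨Ψ, hiso, hsurj, fun t y => ?_⟩
  have h1 : ∑ j, W (e t) j * ((Ψ y j : ℤ_[p]) : ℚ_[p]) = Φ y (e t) := by
    simp only [hΨ, mul_add, Finset.sum_add_distrib]
    have h2 : ∑ j, W (e t) j * E y j =
        ∑ s, (∑ j, W (e t) j * W⁻¹ j s) * (Φ y s - ∑ j, W s j * (y j : ℚ_[p])) := by
      change ∑ j, W (e t) j * (∑ s, W⁻¹ j s * (Φ y s - ∑ j, W s j * (y j : ℚ_[p]))) = _
      simp only [Finset.mul_sum, Finset.sum_mul]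
      rw [Finset.sum_comm]
      exact Finset.sum_congr rfl fun s _ => Finset.sum_congr rfl fun j _ => by ring
    rw [h2]
    simp only [hWi', ite_mul, one_mul, zero_mul, Finset.sum_ite_eq, Finset.mem_univ, if_true]
    ring
  rw [h1, hΦe, mul_inv_cancel_left₀ (pK_ne p N)]
  ring

end Pool.Agent.U841.PA
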