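import Pool.Agent.U841.PA.Loc

set_option autoImplicit false
set_option linter.unusedSectionVars false
set_option linter.unusedVariables false

/-! # The integral over `ℤ_p ^ n` -/

namespace Pool.Agent.U841.PA

open MeasureTheory MvPolynomial Pool.Agent.W427.SMC Pool.Agent.Y230.PT Pool.Agent.Y230.PS
open scoped ENNReal

attribute [local instance] msZ bsZ

variable {p : ℕ} [Fact p.Prime] {σ : Type} [Fintype σ] [DecidableEq σ] {T : Type} [Fintype T]
  [DecidableEq T]

/-- the multiplication by `p ^ N`, as a homomorphism -/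
noncomputable def scHom (p : ℕ) [Fact p.Prime] (σ : Type) (N : ℕ) :
    (σ → ℤ_[p]) →+ (σ → ℤ_[p]) where
  toFun y := fun i => (p : ℤ_[p]) ^ N * y i
  map_zero' := by funext i; simp
  map_add' x y := by funext i; simp [mul_add]

theorem scHom_open (N : ℕ) : IsOpen ((scHom p σ N).range : Set (σ → ℤ_[p])) := by
  refine AddSubgroup.isOpen_of_mem_nhds (g := 0) _ ?_
  refine Filter.mem_of_superset (Metric.closedBall_mem_nhds (0 : σ → ℤ_[p]) (pinv_pos p N)) ?_
  intro x hx
  rw [Metric.mem_closedBall, dist_zero_right] at hx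
  have h1 : ∀ i, ∃ z : ℤ_[p], x i = (p : ℤ_[p]) ^ N * z := by
    intro i
    have h2 : ‖x i‖ ≤ (p : ℝ) ^ (-(N : ℤ)) := by
      rw [zpow_neg, zpow_natCast, ← inv_pow]
      exact (norm_le_pi_norm x i).trans hx
    rw [PadicInt.norm_le_pow_iff_mem_span_pow, Ideal.mem_span_singleton] at h2
    exact h2
  choose z hz using h1
  exact ⟨z, by funext i; exact (hz i).symm⟩

open Classical in
/-- **The integral over `ℤ_p ^ n`, for a divisor with normal crossings.** -/
theorem FR_rho (f : T → MvPolynomial σ ℤ_[p]) (a : T → ℕ) (m : ℂ → ℕ∞)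
    (h : ∀ x0, LinearIndependent ℚ_[p] (grads f x0) ∧ ∀ T0 : ℂ, 1 < ‖T0‖ →
      (∑ t : {t // eval x0 (f t) = 0}, if T0 ^ a t = (p : ℂ) then (1 : ℕ∞) else 0) ≤ m T0) :
    FR p m (FZ (mG p σ) (rho f a)) := by
  classical
  choose N1 hN1 using fun x0 => FR_loc f a x0 (h x0).1
  obtain ⟨s, hs⟩ := isCompact_univ.elim_finite_subcover
    (fun x0 : σ → ℤ_[p] => Metric.closedBall x0 ((p : ℝ)⁻¹ ^ N1 x0)) (fun x0 => bl_open x0 _)
    (fun x _ => Set.mem_iUnion.2 ⟨x, Metric.mem_closedBall_self (pinv_pos p _).le⟩)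
  set N : ℕ := ∑ x0 ∈ s, N1 x0 with hN
  have hloc : ∀ x1 : σ → ℤ_[p], FR p m (FZ (mG p σ) fun y => rho f a (x1 + sc N y)) := by
    intro x1
    obtain ⟨x0, hx0, hx1⟩ : ∃ x0 ∈ s, x1 ∈ Metric.closedBall x0 ((p : ℝ)⁻¹ ^ N1 x0) := by
      have := hs (Set.mem_univ x1)
      simpa using this
    rw [Metric.mem_closedBall, dist_eq_norm] at hx1
    exact (hN1 x0 x1 hx1 N (Finset.single_le_sum (f := N1) (fun _ _ => Nat.zero_le _) hx0)).mono
      fun T0 hT0 => (h x0).2 T0 hT0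
  set L := scHom p σ N with hL
  have hLc : Continuous L := sc_cont N
  have hfin : Finite ((σ → ℤ_[p]) ⧸ L.range) :=
    AddSubgroup.quotient_finite_of_isOpen _ (scHom_open N)
  have _ := Fintype.ofFinite ((σ → ℤ_[p]) ⧸ L.range)
  have h4 : FR p m
      (fun s => ((Fintype.card ((σ → ℤ_[p]) ⧸ L.range) : ℝ)⁻¹ : ℂ) *
        ∑ q : (σ → ℤ_[p]) ⧸ L.range, FZ (mG p σ) (fun w => rho f a (q.out + sc N w)) s) :=
    FR.mul0 (F := fun _ => ((Fintype.card ((σ → ℤ_[p]) ⧸ L.range) : ℝ)⁻¹ : ℂ))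
      (fun T0 _ => Reg.const _) (FR.sum Finset.univ _ fun q _ => hloc q.out)
  refine h4.congr fun s hs => ?_
  rw [FZ_eq _ _ (rho_nonneg f a) (rho_cont f a).measurable, avg_integral L hLc
    (fun z => rho f a z ^ s) ((rho_cont f a).rpow_const fun x => Or.inr hs)]
  push_cast
  congr 1
  refine Finset.sum_congr rfl fun q _ => ?_
  exact FZ_eq _ _ (fun w => rho_nonneg f a _)
    ((rho_cont f a).comp (continuous_const.add (sc_cont N))).measurable s

end Pool.Agent.U841.PA
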