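import Pool.Agent.U841.PA.Chart2
import Pool.Agent.U841.PA.Glob

set_option autoImplicit false
set_option linter.unusedSectionVars false
set_option linter.unusedVariables false

/-! # Integrals of polynomials which are close to each other -/

namespace Pool.Agent.U841.PA

open MeasureTheory MvPolynomial Pool.Agent.W427.SMC Pool.Agent.Y230.PT Pool.Agent.Y230.PS
open scoped ENNReal

attribute [local instance] msZ bsZ

variable {p : ℕ} [Fact p.Prime] {σ : Type} [Fintype σ] [DecidableEq σ] {T : Type} [Fintype T]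

/-- `f` is congruent to `g` modulo `p ^ k` -/
def Close (k : ℕ) (f g : MvPolynomial σ ℤ_[p]) : Prop :=
  ∃ h : MvPolynomial σ ℤ_[p], f = g + C ((p : ℤ_[p]) ^ k) * h

theorem Close.refl (k : ℕ) (g : MvPolynomial σ ℤ_[p]) : Close k g g :=
  ⟨0, by rw [mul_zero, add_zero]⟩

theorem Close.mono {k l : ℕ} (hkl : l ≤ k) {f g : MvPolynomial σ ℤ_[p]} (h : Close k f g) :
    Close l f g := by
  obtain ⟨h, rfl⟩ := h
  refine ⟨C ((p : ℤ_[p]) ^ (k - l)) * h, ?_⟩
  rw [← mul_assoc, ← C_mul, ← pow_add, Nat.add_sub_cancel' hkl]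

theorem Close.val {k : ℕ} {f g : MvPolynomial σ ℤ_[p]} (h : Close k f g) (x : σ → ℤ_[p]) :
    ‖eval x f - eval x g‖ ≤ (p : ℝ)⁻¹ ^ k := by
  obtain ⟨h, rfl⟩ := h
  rw [map_add, add_sub_cancel_left, map_mul, eval_C, norm_mul, norm_pow, PadicInt.norm_p]
  have := pinv_pos p k
  calc (p : ℝ)⁻¹ ^ k * ‖eval x h‖ ≤ (p : ℝ)⁻¹ ^ k * 1 := by
        gcongr
        exact PadicInt.norm_le_one _
    _ = _ := mul_one _

theorem Close.pderiv {k : ℕ} {f g : MvPolynomial σ ℤ_[p]} (h : Close k f g) (j : σ) :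
    Close k (MvPolynomial.pderiv j f) (MvPolynomial.pderiv j g) := by
  obtain ⟨h, rfl⟩ := h
  refine ⟨MvPolynomial.pderiv j h, ?_⟩
  rw [map_add, pderiv_C_mul]

open Classical in
/-- **A common form near a point with normal crossings, for all polynomials which are close.** -/
theorem loc_rep [DecidableEq T] (g : T → MvPolynomial σ ℤ_[p]) (a : T → ℕ) (x0 : σ → ℤ_[p])
    (hli : LinearIndependent ℚ_[p] (grads g x0)) :
    ∃ N1 : ℕ, ∀ x1 : σ → ℤ_[p], ‖x1 - x0‖ ≤ (p : ℝ)⁻¹ ^ N1 → ∀ N : ℕ, N1 ≤ N →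
      ∃ G : (σ → ℤ_[p]) → ℝ, Continuous G ∧ (∀ z, 0 ≤ G z) ∧
        ∀ f : T → MvPolynomial σ ℤ_[p], (∀ t, Close (N + N1) (f t) (g t)) →
        ∃ Ψ : (σ → ℤ_[p]) → (σ → ℤ_[p]), (∀ x y, ‖Ψ x - Ψ y‖ = ‖x - y‖) ∧
          Function.Surjective Ψ ∧ ∀ y, rho f a (x1 + sc N y) = G (Ψ y) := by
  classical
  obtain ⟨W, e, he, hW, hWe⟩ := exists_matrix (grads g x0) hli
  obtain ⟨N0, hN0⟩ := exists_chart2 x0 W hW e he
  have hpinv : (p : ℝ)⁻¹ < 1 :=
    inv_lt_one_of_one_lt₀ (by exact_mod_cast (Fact.out : p.Prime).one_lt)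
  obtain ⟨M, hM⟩ : ∃ M : ℕ, ∀ t, eval x0 (g t) ≠ 0 → (p : ℝ)⁻¹ ^ M < ‖eval x0 (g t)‖ := by
    have h1 : ∀ t : T, ∃ M : ℕ, eval x0 (g t) ≠ 0 → (p : ℝ)⁻¹ ^ M < ‖eval x0 (g t)‖ := by
      intro t
      by_cases h : eval x0 (g t) = 0
      · exact ⟨0, fun h' => absurd h h'⟩
      · obtain ⟨M, hM⟩ := exists_pow_lt_of_lt_one (norm_pos_iff.2 h) hpinv
        exact ⟨M, fun _ => hM⟩
    choose M hM using h1
    refine ⟨∑ t, M t, fun t ht => ?_⟩
    exact (pinv_anti p (Finset.single_le_sum (f := M) (fun _ _ => Nat.zero_le _)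
      (Finset.mem_univ t))).trans_lt (hM t ht)
  refine ⟨max N0 M, fun x1 hx1 N hN => ?_⟩
  set c0 : ℚ_[p] := ∏ t : {t // ¬ eval x0 (g t) = 0}, ((eval x0 (g t) : ℤ_[p]) : ℚ_[p]) ^ a t
    with hc0
  set γ : {t // eval x0 (g t) = 0} → ℚ_[p] := fun t => ((eval x1 (g t) : ℤ_[p]) : ℚ_[p]) with hγ
  set G : (σ → ℤ_[p]) → ℝ := fun z =>
    ∏ t : {t // eval x0 (g t) = 0}, ‖γ t + (p : ℚ_[p]) ^ N *
      ∑ j, W (e t) j * (z j : ℚ_[p])‖ ^ a t with hG
  have hGc : Continuous G := by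
    refine continuous_finsetProd _ fun t _ => ?_
    refine (continuous_norm.comp (continuous_const.add (continuous_const.mul
      (continuous_finsetSum _ fun j _ => continuous_const.mul ?_)))).pow _
    exact inc_cont.comp (continuous_apply j)
  have hG0 : ∀ z, 0 ≤ G z := fun z => Finset.prod_nonneg fun t _ => by positivity
  refine ⟨fun z => ‖c0‖ * G z, continuous_const.mul hGc,
    fun z => mul_nonneg (norm_nonneg _) (hG0 z), fun f hf => ?_⟩
  obtain ⟨Ψ, hΨ1, hΨ2, hΨ3⟩ := hN0 (max N0 M) (le_max_left _ _)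
    (fun t : {t // eval x0 (g t) = 0} => f t) (fun t j => by
      rw [hWe]
      unfold grads
      rw [← PadicInt.coe_sub, ← PadicInt.norm_def, norm_sub_rev]
      exact (((hf t).pderiv j).val x0).trans (pinv_anti p (by omega))) x1 hx1 N hN
    (fun t => eval x1 (g t)) (fun t => ((hf t).val x1).trans (pinv_anti p (by omega)))
  refine ⟨Ψ, hΨ1, hΨ2, fun y => ?_⟩
  have h1 := Fintype.prod_subtype_mul_prod_subtype (fun t => eval x0 (g t) = 0)
    (fun t => ‖eval (x1 + sc N y) (f t)‖ ^ a t)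
  unfold rho
  rw [← h1, mul_comm]
  congr 1
  · rw [hc0, norm_prod]
    refine Finset.prod_congr rfl fun t _ => ?_
    rw [norm_pow]
    congr 1
    have h2 : ‖eval (x1 + sc N y) (f t) - eval x0 (g t)‖ < ‖eval x0 (g t)‖ := by
      have h3 := tay0 (g t) x0 (x1 + sc N y - x0)
      rw [add_sub_cancel] at h3
      have h4 : x1 + sc N y - x0 = (x1 - x0) + sc N y := by abel
      have h5 : ‖eval (x1 + sc N y) (g t) - eval x0 (g t)‖ ≤ (p : ℝ)⁻¹ ^ M := by
        refine h3.trans ?_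
        rw [h4]
        exact normG_add _ _ _ (hx1.trans (pinv_anti p (le_max_right _ _)))
          ((sc_norm' N y).trans (pinv_anti p ((le_max_right _ _).trans hN)))
      have h6 : ‖eval (x1 + sc N y) (f t) - eval (x1 + sc N y) (g t)‖ ≤ (p : ℝ)⁻¹ ^ M :=
        ((hf t).val _).trans (pinv_anti p (by omega))
      have h7 : eval (x1 + sc N y) (f t) - eval x0 (g t) =
          (eval (x1 + sc N y) (f t) - eval (x1 + sc N y) (g t)) +
          (eval (x1 + sc N y) (g t) - eval x0 (g t)) := by ring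
      rw [h7]
      exact (norm_add_le_of _ _ _ h6 h5).trans_lt (hM t t.2)
    have h5 : eval (x1 + sc N y) (f t) =
        (eval (x1 + sc N y) (f t) - eval x0 (g t)) + eval x0 (g t) := by ring
    rw [h5, PadicInt.norm_add_eq_max_of_ne h2.ne, max_eq_right h2.le, PadicInt.norm_def]
  · rw [hG]
    refine Finset.prod_congr rfl fun t _ => ?_
    congr 1
    rw [PadicInt.norm_def, hΨ3 t y]

/-- the real integral -/
noncomputable def IR (f : T → MvPolynomial σ ℤ_[p]) (a : T → ℕ) (x : σ → ℤ_[p]) (N : ℕ) (s : ℝ) :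
    ℝ := ∫ y, rho f a (x + sc N y) ^ s ∂(mG p σ)

/-- **Local comparison.** -/
theorem loc_comp [DecidableEq T] (g : T → MvPolynomial σ ℤ_[p]) (a : T → ℕ) (x0 : σ → ℤ_[p])
    (hli : LinearIndependent ℚ_[p] (grads g x0)) :
    ∃ N1 : ℕ, ∀ x1 : σ → ℤ_[p], ‖x1 - x0‖ ≤ (p : ℝ)⁻¹ ^ N1 → ∀ N : ℕ, N1 ≤ N →
      ∀ f : T → MvPolynomial σ ℤ_[p], (∀ t, Close (N + N1) (f t) (g t)) →
        ∀ s : ℝ, 0 ≤ s → IR f a x1 N s = IR g a x1 N s := by
  obtain ⟨N1, h1⟩ := loc_rep g a x0 hli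
  refine ⟨N1, fun x1 hx1 N hN f hf s hs => ?_⟩
  obtain ⟨G, hGc, hG0, h2⟩ := h1 x1 hx1 N hN
  have key : ∀ f : T → MvPolynomial σ ℤ_[p], (∀ t, Close (N + N1) (f t) (g t)) →
      IR f a x1 N s = ∫ z, G z ^ s ∂(mG p σ) := by
    intro f hf
    obtain ⟨Ψ, hΨ1, hΨ2, h3⟩ := h2 f hf
    unfold IR
    simp only [h3]
    exact iso_integral Ψ hΨ1 hΨ2 (fun z => G z ^ s) (hGc.rpow_const fun x => Or.inr hs)
  rw [key f hf, key g fun t => Close.refl _ _]

/-- averages -/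
theorem IR_avg (f : T → MvPolynomial σ ℤ_[p]) (a : T → ℕ) (x : σ → ℤ_[p]) (N M : ℕ) (s : ℝ)
    (hs : 0 ≤ s) [Fintype ((σ → ℤ_[p]) ⧸ (scHom p σ M).range)] :
    IR f a x N s = ((Fintype.card ((σ → ℤ_[p]) ⧸ (scHom p σ M).range) : ℝ)⁻¹) *
      ∑ q : (σ → ℤ_[p]) ⧸ (scHom p σ M).range, IR f a (x + sc N q.out) (N + M) s := by
  unfold IR
  rw [avg_integral (scHom p σ M) (sc_cont M) (fun y => rho f a (x + sc N y) ^ s)
    (((rho_cont f a).comp (continuous_const.add (sc_cont N))).rpow_const fun x => Or.inr hs)]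
  congr 1
  refine Finset.sum_congr rfl fun q _ => ?_
  congr 1
  funext w
  congr 2
  funext i
  change x i + (p : ℤ_[p]) ^ N * (q.out i + (p : ℤ_[p]) ^ M * w i) =
    x i + (p : ℤ_[p]) ^ N * q.out i + (p : ℤ_[p]) ^ (N + M) * w i
  ring

theorem fin_quot (M : ℕ) : Finite ((σ → ℤ_[p]) ⧸ (scHom p σ M).range) :=
  AddSubgroup.quotient_finite_of_isOpen _ (scHom_open M)

/-- translations -/
theorem IR_shift (f : T → MvPolynomial σ ℤ_[p]) (a : T → ℕ) (x z : σ → ℤ_[p]) (N : ℕ) (s : ℝ) :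
    IR f a (x + sc N z) N s = IR f a x N s := by
  unfold IR
  rw [← integral_add_left_eq_self (fun y => rho f a (x + sc N y) ^ s) z]
  congr 1
  funext y
  congr 2
  funext i
  change x i + (p : ℤ_[p]) ^ N * z i + (p : ℤ_[p]) ^ N * y i =
    x i + (p : ℤ_[p]) ^ N * (z i + y i)
  ring

end Pool.Agent.U841.PA
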