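import Pool.Agent.U841.PA.Comp

set_option autoImplicit false
set_option linter.unusedSectionVars false
set_option linter.unusedVariables false

/-! # Comparison with the initial forms -/

namespace Pool.Agent.U841.PA

open MeasureTheory MvPolynomial Pool.Agent.W427.SMC Pool.Agent.Y230.PT Pool.Agent.Y230.PS
open scoped ENNReal

attribute [local instance] msZ bsZ

variable {p : ℕ} [Fact p.Prime] {σ : Type} [Fintype σ] [DecidableEq σ] {T : Type} [Fintype T]

theorem norm_add_sc (x z : σ → ℤ_[p]) (hx : ‖x‖ = 1) : ‖x + sc 1 z‖ = 1 := by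
  have h1 : ‖sc 1 z‖ < ‖x‖ := by
    rw [hx]
    refine (sc_norm' 1 z).trans_lt ?_
    rw [pow_one]
    exact inv_lt_one_of_one_lt₀ (by exact_mod_cast (Fact.out : p.Prime).one_lt)
  have := ultra (p := p) (σ := σ)
  rw [IsUltrametricDist.norm_add_eq_max_of_norm_ne_norm h1.ne', max_eq_left h1.le, hx]

/-- **Comparison on the sphere.** -/
theorem sphere_comp [DecidableEq T] (g : T → MvPolynomial σ ℤ_[p]) (a : T → ℕ)
    (hli : ∀ y : σ → ℤ_[p], ‖y‖ = 1 → LinearIndependent ℚ_[p] (grads g y)) :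
    ∃ K : ℕ, ∀ f : T → MvPolynomial σ ℤ_[p], (∀ t, Close K (f t) (g t)) →
      ∀ x : σ → ℤ_[p], ‖x‖ = 1 → ∀ s : ℝ, 0 ≤ s → IR f a x 1 s = IR g a x 1 s := by
  classical
  have hch : ∀ y : σ → ℤ_[p], ∃ N1 : ℕ, ‖y‖ = 1 → ∀ x1 : σ → ℤ_[p],
      ‖x1 - y‖ ≤ (p : ℝ)⁻¹ ^ N1 → ∀ N : ℕ, N1 ≤ N →
      ∀ f : T → MvPolynomial σ ℤ_[p], (∀ t, Close (N + N1) (f t) (g t)) →
        ∀ s : ℝ, 0 ≤ s → IR f a x1 N s = IR g a x1 N s := by
    intro y
    by_cases hy : ‖y‖ = 1
    · obtain ⟨N1, h⟩ := loc_comp g a y (hli y hy)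
      exact ⟨N1, fun _ => h⟩
    · exact ⟨0, fun h => absurd h hy⟩
  choose N1 hN1 using hch
  have hcomp : IsCompact {y : σ → ℤ_[p] | ‖y‖ = 1} :=
    (isClosed_singleton.preimage continuous_norm).isCompact
  obtain ⟨S, hS⟩ := hcomp.elim_nhds_subcover' (fun y _ => Metric.closedBall y ((p : ℝ)⁻¹ ^ N1 y))
    (fun y _ => Metric.closedBall_mem_nhds y (pinv_pos p _))
  set R : ℕ := ∑ y ∈ S, N1 y with hR
  refine ⟨1 + R + R, fun f hf x hx s hs => ?_⟩
  have := fin_quot (p := p) (σ := σ) R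
  have _ := Fintype.ofFinite ((σ → ℤ_[p]) ⧸ (scHom p σ R).range)
  rw [IR_avg f a x 1 R s hs, IR_avg g a x 1 R s hs]
  congr 1
  refine Finset.sum_congr rfl fun q _ => ?_
  have h1 : ‖x + sc 1 q.out‖ = 1 := norm_add_sc x _ hx
  obtain ⟨y, hy⟩ := Set.mem_iUnion.1 (hS h1)
  obtain ⟨hyS, hy⟩ := Set.mem_iUnion.1 hy
  rw [Metric.mem_closedBall, dist_eq_norm] at hy
  have h2 : N1 y ≤ R := Finset.single_le_sum (f := fun y : {y : σ → ℤ_[p] | ‖y‖ = 1} => N1 y)
    (fun _ _ => Nat.zero_le _) hyS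
  exact hN1 y y.2 _ hy (1 + R) (by omega) f (fun t => (hf t).mono (by omega)) s hs

/-- the rescaled polynomial -/
noncomputable def dil (N δ : ℕ) (q : MvPolynomial σ ℤ_[p]) : MvPolynomial σ ℤ_[p] :=
  ∑ j ∈ Finset.range (q.totalDegree + 1), C ((p : ℤ_[p]) ^ (N * (j - δ))) *
    homogeneousComponent j q

theorem eval_sc_hom (N j : ℕ) (q : MvPolynomial σ ℤ_[p]) (hq : q.IsHomogeneous j)
    (y : σ → ℤ_[p]) : eval (sc N y) q = (p : ℤ_[p]) ^ (N * j) * eval y q := by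
  have h1 : sc N y = fun i => (p : ℤ_[p]) ^ N * y i := rfl
  rw [h1, eval_eq, eval_eq, Finset.mul_sum]
  refine Finset.sum_congr rfl fun m hm => ?_
  have h2 : ∑ i ∈ m.support, m i = j := by
    have h4 : m.degree = j := by
      rw [Finsupp.degree_eq_weight_one]
      exact hq (mem_support_iff.1 hm)
    exact h4
  have h3 : ∏ i ∈ m.support, ((p : ℤ_[p]) ^ N * y i) ^ m i =
      (p : ℤ_[p]) ^ (N * j) * ∏ i ∈ m.support, y i ^ m i := by
    simp only [mul_pow, Finset.prod_mul_distrib]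
    congr 1
    rw [pow_mul, ← h2, Finset.prod_pow_eq_pow_sum]
  rw [h3]
  ring

theorem eval_dil (N δ : ℕ) (q : MvPolynomial σ ℤ_[p])
    (hq : ∀ j, j < δ → homogeneousComponent j q = 0) (y : σ → ℤ_[p]) :
    eval (sc N y) q = (p : ℤ_[p]) ^ (N * δ) * eval y (dil N δ q) := by
  conv_lhs => rw [← sum_homogeneousComponent q]
  rw [map_sum, dil, map_sum, Finset.mul_sum]
  refine Finset.sum_congr rfl fun j _ => ?_
  rw [eval_sc_hom N j _ (homogeneousComponent_isHomogeneous j q), map_mul, eval_C]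
  by_cases hj : j < δ
  · rw [hq j hj, map_zero, mul_zero, mul_zero, mul_zero]
  · rw [← mul_assoc, ← pow_add, ← mul_add, Nat.add_sub_cancel' (by omega)]

theorem dil_close (N δ : ℕ) (q : MvPolynomial σ ℤ_[p])
    (hq : ∀ j, j < δ → homogeneousComponent j q = 0) :
    Close N (dil N δ q) (homogeneousComponent δ q) := by
  by_cases hδ : δ < q.totalDegree + 1
  · refine ⟨∑ j ∈ (Finset.range (q.totalDegree + 1)).erase δ,
      C ((p : ℤ_[p]) ^ (N * (j - δ) - N)) * homogeneousComponent j q, ?_⟩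
    rw [dil, ← Finset.add_sum_erase _ _ (Finset.mem_range.2 hδ), Nat.sub_self, mul_zero, pow_zero,
      C_1, one_mul, Finset.mul_sum]
    congr 1
    refine Finset.sum_congr rfl fun j hj => ?_
    have hjδ := (Finset.mem_erase.1 hj).1
    by_cases hj2 : j < δ
    · rw [hq j hj2, mul_zero, mul_zero, mul_zero]
    · rw [← mul_assoc, ← C_mul, ← pow_add]
      congr 3
      have h1 : 1 ≤ j - δ := by omega
      have h2 : N * 1 ≤ N * (j - δ) := Nat.mul_le_mul_left N h1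
      omega
  · have h1 : homogeneousComponent δ q = 0 := homogeneousComponent_eq_zero _ _ (by omega)
    have h2 : dil N δ q = 0 := by
      refine Finset.sum_eq_zero fun j hj => ?_
      rw [Finset.mem_range] at hj
      rw [hq j (by omega), mul_zero]
    rw [h1, h2]
    exact Close.refl _ _

theorem eval_dil_succ (N δ : ℕ) (q : MvPolynomial σ ℤ_[p])
    (hq : ∀ j, j < δ → homogeneousComponent j q = 0) (y : σ → ℤ_[p]) :
    eval (sc 1 y) (dil N δ q) = (p : ℤ_[p]) ^ δ * eval y (dil (N + 1) δ q) := by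
  rw [dil, dil, map_sum, map_sum, Finset.mul_sum]
  refine Finset.sum_congr rfl fun j _ => ?_
  rw [map_mul, map_mul, eval_C, eval_C,
    eval_sc_hom 1 j _ (homogeneousComponent_isHomogeneous j q), one_mul]
  by_cases hj : j < δ
  · rw [hq j hj, map_zero, mul_zero, mul_zero, mul_zero, mul_zero]
  · rw [← mul_assoc, ← pow_add, ← mul_assoc, ← pow_add]
    congr 2
    have h1 : (N + 1) * (j - δ) = N * (j - δ) + (j - δ) := by ring
    omega

theorem rho_sc (q : T → MvPolynomial σ ℤ_[p]) (a δ : T → ℕ) (N : ℕ)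
    (F : T → MvPolynomial σ ℤ_[p]) (x y : σ → ℤ_[p])
    (h : ∀ t, eval x (q t) = (p : ℤ_[p]) ^ (N * δ t) * eval y (F t)) :
    rho q a x = ((p : ℝ)⁻¹) ^ (N * ∑ t, a t * δ t) * rho F a y := by
  unfold rho
  have h1 : ((p : ℝ)⁻¹) ^ (N * ∑ t, a t * δ t) = ∏ t, (((p : ℝ)⁻¹) ^ (N * δ t)) ^ a t := by
    rw [Finset.mul_sum, ← Finset.prod_pow_eq_pow_sum]
    refine Finset.prod_congr rfl fun t _ => ?_
    rw [← pow_mul]
    congr 1
    ring
  rw [h1, ← Finset.prod_mul_distrib]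
  refine Finset.prod_congr rfl fun t _ => ?_
  rw [h t, norm_mul, norm_pow, PadicInt.norm_p, mul_pow]

end Pool.Agent.U841.PA
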