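import Pool.Agent.U841.PA.Comp2

set_option autoImplicit false
set_option linter.unusedSectionVars false
set_option linter.unusedVariables false

/-! # The integral near a point is the integral of the initial form -/

namespace Pool.Agent.U841.PA

open MeasureTheory MvPolynomial Pool.Agent.W427.SMC Pool.Agent.Y230.PT Pool.Agent.Y230.PS
open scoped ENNReal

attribute [local instance] msZ bsZ

variable {p : ℕ} [Fact p.Prime] {σ : Type} [Fintype σ] [DecidableEq σ] {T : Type} [Fintype T]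

theorem rho_le_one (f : T → MvPolynomial σ ℤ_[p]) (a : T → ℕ) (x : σ → ℤ_[p]) :
    rho f a x ≤ 1 :=
  Finset.prod_le_one (fun _ _ => by positivity) fun t _ =>
    pow_le_one₀ (norm_nonneg _) (PadicInt.norm_le_one _)

theorem IR_mem (f : T → MvPolynomial σ ℤ_[p]) (a : T → ℕ) (x : σ → ℤ_[p]) (N : ℕ) (s : ℝ)
    (hs : 0 ≤ s) : 0 ≤ IR f a x N s ∧ IR f a x N s ≤ 1 := by
  have hc : Continuous fun y => rho f a (x + sc N y) ^ s :=
    ((rho_cont f a).comp (continuous_const.add (sc_cont N))).rpow_const fun x => Or.inr hs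
  refine ⟨integral_nonneg fun y => Real.rpow_nonneg (rho_nonneg f a _) _, ?_⟩
  have h1 : IR f a x N s ≤ ∫ y : σ → ℤ_[p], (1 : ℝ) ∂(mG p σ) := by
    unfold IR
    refine integral_mono (hc.integrable_of_hasCompactSupport (HasCompactSupport.of_compactSpace _))
      (integrable_const _) fun y => ?_
    exact Real.rpow_le_one (rho_nonneg f a _) (rho_le_one f a _) hs
  rw [integral_const, smul_eq_mul, mul_one] at h1
  simpa using h1

/-- the cosets of `p ℤ_p ^ n` -/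
theorem coset_norm (q : (σ → ℤ_[p]) ⧸ (scHom p σ 1).range) (hq : q ≠ 0) : ‖q.out‖ = 1 := by
  by_contra h
  have h1 : ‖q.out‖ < 1 := lt_of_le_of_ne (norm_le_oneG _) h
  apply hq
  have h2 : ∀ i, ∃ z : ℤ_[p], q.out i = (p : ℤ_[p]) * z := by
    intro i
    have h3 : ‖q.out i‖ < 1 := (norm_le_pi_norm q.out i).trans_lt h1
    rw [PadicInt.norm_lt_one_iff_dvd] at h3
    exact h3
  choose z hz using h2
  have h3 : q.out ∈ (scHom p σ 1).range := ⟨z, by
    funext i
    rw [hz]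
    change (p : ℤ_[p]) ^ 1 * z i = _
    rw [pow_one]⟩
  rw [← QuotientAddGroup.out_eq' q, QuotientAddGroup.eq_zero_iff]
  exact h3

theorem zero_out : ∃ z : σ → ℤ_[p],
    (0 : (σ → ℤ_[p]) ⧸ (scHom p σ 1).range).out = sc 1 z := by
  have h1 : (QuotientAddGroup.mk (0 : (σ → ℤ_[p]) ⧸ (scHom p σ 1).range).out :
      (σ → ℤ_[p]) ⧸ (scHom p σ 1).range) = 0 := QuotientAddGroup.out_eq' _
  rw [QuotientAddGroup.eq_zero_iff] at h1
  obtain ⟨z, hz⟩ := h1
  exact ⟨z, hz.symm⟩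

theorem card_two [Nonempty σ] [Fintype ((σ → ℤ_[p]) ⧸ (scHom p σ 1).range)] :
    2 ≤ Fintype.card ((σ → ℤ_[p]) ⧸ (scHom p σ 1).range) := by
  have h : Nontrivial ((σ → ℤ_[p]) ⧸ (scHom p σ 1).range) := by
    refine ⟨⟨QuotientAddGroup.mk (fun _ => 1), 0, fun h => ?_⟩⟩
    rw [QuotientAddGroup.eq_zero_iff] at h
    obtain ⟨z, hz⟩ := h
    have h1 := congrFun hz (Classical.arbitrary σ)
    change (p : ℤ_[p]) ^ 1 * z _ = 1 at h1
    have h2 := congrArg (fun x => ‖x‖) h1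
    simp only [norm_mul, pow_one, PadicInt.norm_p, norm_one] at h2
    have h3 : (p : ℝ)⁻¹ < 1 :=
      inv_lt_one_of_one_lt₀ (by exact_mod_cast (Fact.out : p.Prime).one_lt)
    have h4 := PadicInt.norm_le_one (z (Classical.arbitrary σ))
    have h5 : (0 : ℝ) ≤ (p : ℝ)⁻¹ := by positivity
    nlinarith
  exact Fintype.one_lt_card_iff_nontrivial.2 h

/-- **The integral near a point.** -/
theorem cone_comp [DecidableEq T] [Nonempty σ] (q : T → MvPolynomial σ ℤ_[p]) (a δ : T → ℕ)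
    (hq : ∀ t j, j < δ t → homogeneousComponent j (q t) = 0)
    (hli : ∀ y : σ → ℤ_[p], ‖y‖ = 1 →
      LinearIndependent ℚ_[p] (grads (fun t => homogeneousComponent (δ t) (q t)) y)) :
    ∃ K : ℕ, ∀ N, K ≤ N → ∀ s : ℝ, 0 ≤ s → IR q a 0 N s =
      (((p : ℝ)⁻¹) ^ (N * ∑ t, a t * δ t)) ^ s *
        IR (fun t => homogeneousComponent (δ t) (q t)) a 0 0 s := by
  classical
  set g : T → MvPolynomial σ ℤ_[p] := fun t => homogeneousComponent (δ t) (q t) with hg
  obtain ⟨K, hK⟩ := sphere_comp g a hli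
  have := fin_quot (p := p) (σ := σ) 1
  have _ := Fintype.ofFinite ((σ → ℤ_[p]) ⧸ (scHom p σ 1).range)
  set D : ℕ := ∑ t, a t * δ t with hD
  set F : ℕ → T → MvPolynomial σ ℤ_[p] := fun N t => dil N (δ t) (q t) with hF
  have hsc0 : ∀ y : σ → ℤ_[p], sc 0 y = y := by
    intro y
    funext i
    simp [sc]
  have hpos : ∀ N : ℕ, (0 : ℝ) ≤ ((p : ℝ)⁻¹) ^ N := fun N => (pinv_pos p N).le
  -- rescaling
  have hresc : ∀ (F1 F2 : T → MvPolynomial σ ℤ_[p]) (N : ℕ) (s : ℝ),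
      (∀ t y, eval (sc N y) (F1 t) = (p : ℤ_[p]) ^ (N * δ t) * eval y (F2 t)) →
      IR F1 a 0 N s = (((p : ℝ)⁻¹) ^ (N * D)) ^ s * IR F2 a 0 0 s := by
    intro F1 F2 N s h
    unfold IR
    rw [← integral_const_mul]
    congr 1
    funext y
    rw [zero_add, zero_add, hsc0, rho_sc F1 a δ N F2 (sc N y) y fun t => h t y,
      Real.mul_rpow (hpos _) (rho_nonneg _ _ _)]
  have hstep : ∀ (N : ℕ) (s : ℝ), K ≤ N → 0 ≤ s → |IR (F N) a 0 0 s - IR g a 0 0 s| ≤
      1 / 2 * |IR (F (N + 1)) a 0 0 s - IR g a 0 0 s| := by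
    intro N s hN hs
    set c : ℝ := (Fintype.card ((σ → ℤ_[p]) ⧸ (scHom p σ 1).range) : ℝ) with hc
    have hc2 : 2 ≤ c := by
      rw [hc]
      exact_mod_cast card_two (p := p) (σ := σ)
    have h1 : IR (F N) a 0 0 s - IR g a 0 0 s = c⁻¹ *
        ((((p : ℝ)⁻¹) ^ (1 * D)) ^ s * (IR (F (N + 1)) a 0 0 s - IR g a 0 0 s)) := by
      conv_lhs => rw [IR_avg (F N) a 0 0 1 s hs, IR_avg g a 0 0 1 s hs, ← mul_sub,
        ← Finset.sum_sub_distrib]
      congr 1
      rw [Finset.sum_eq_single (0 : (σ → ℤ_[p]) ⧸ (scHom p σ 1).range)]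
      · obtain ⟨z, hz⟩ := zero_out (p := p) (σ := σ)
        rw [hsc0, hz, zero_add 1, IR_shift, IR_shift,
          hresc (F N) (F (N + 1)) 1 s (fun t y => by
            rw [one_mul]
            exact eval_dil_succ N (δ t) (q t) (hq t) y),
          hresc g g 1 s (fun t y =>
            eval_sc_hom 1 (δ t) _ (homogeneousComponent_isHomogeneous _ _) y)]
        ring
      · intro r _ hr
        rw [hsc0, zero_add, zero_add 1, sub_eq_zero]
        exact hK (F N) (fun t => (dil_close N (δ t) (q t) (hq t)).mono hN) _ (coset_norm r hr) s hs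
      · intro h
        exact absurd (Finset.mem_univ _) h
    have hp1 : (p : ℝ)⁻¹ ≤ 1 :=
      inv_le_one_of_one_le₀ (by exact_mod_cast (Fact.out : p.Prime).one_le)
    have hp0 : (0 : ℝ) ≤ (p : ℝ)⁻¹ := inv_nonneg.2 (Nat.cast_nonneg _)
    have h2 : (((p : ℝ)⁻¹) ^ (1 * D)) ^ s ≤ 1 :=
      Real.rpow_le_one (hpos _) (pow_le_one₀ hp0 hp1) hs
    have h3 : 0 ≤ (((p : ℝ)⁻¹) ^ (1 * D)) ^ s := Real.rpow_nonneg (hpos _) _
    have h4 : c⁻¹ ≤ 1 / 2 := by
      rw [one_div]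
      exact inv_anti₀ (by norm_num) hc2
    have h5 : 0 ≤ c⁻¹ := inv_nonneg.2 (by linarith)
    rw [h1, abs_mul, abs_mul, abs_of_nonneg h5, abs_of_nonneg h3]
    have h6 := abs_nonneg (IR (F (N + 1)) a 0 0 s - IR g a 0 0 s)
    calc c⁻¹ * ((((p : ℝ)⁻¹) ^ (1 * D)) ^ s * |IR (F (N + 1)) a 0 0 s - IR g a 0 0 s|) ≤
        1 / 2 * (1 * |IR (F (N + 1)) a 0 0 s - IR g a 0 0 s|) := by gcongr
      _ = _ := by rw [one_mul]
  have hit : ∀ (m N : ℕ) (s : ℝ), K ≤ N → 0 ≤ s → |IR (F N) a 0 0 s - IR g a 0 0 s| ≤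
      (1 / 2) ^ m := by
    intro m
    induction m with
    | zero =>
      intro N s hN hs
      have h1 := IR_mem (F N) a 0 0 s hs
      have h2 := IR_mem g a 0 0 s hs
      rw [pow_zero, abs_le]
      constructor <;> linarith
    | succ m ih =>
      intro N s hN hs
      have h1 := ih (N + 1) s (by omega) hs
      rw [pow_succ]
      linarith [hstep N s hN hs]
  refine ⟨K, fun N hN s hs => ?_⟩
  rw [hresc q (F N) N s fun t y => eval_dil N (δ t) (q t) (hq t) y]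
  congr 1
  have h1 : |IR (F N) a 0 0 s - IR g a 0 0 s| ≤ 0 :=
    ge_of_tendsto' (tendsto_pow_atTop_nhds_zero_of_lt_one (by norm_num) (by norm_num))
      fun m => hit m N s hN hs
  exact sub_eq_zero.1 (abs_eq_zero.1 (le_antisymm h1 (abs_nonneg _)))

end Pool.Agent.U841.PA
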