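import Pool.Agent.U841.PA.Glob
import Pool.Agent.U841.SN.Defs
import Pool.Agent.U184.Padic

set_option autoImplicit false
set_option linter.unusedSectionVars false
set_option linter.unusedVariables false

/-! # The zeta function of a cone over a divisor with normal crossings -/

namespace Pool.Agent.U841.PA

open MeasureTheory MvPolynomial Pool.Agent.W427.SMC Pool.Agent.Y230.PT Pool.Agent.Y230.PS
open scoped ENNReal
open Pool.Agent.U184 (fam)
open Pool.Agent.U841.SN (NormalCrossings)

attribute [local instance] msZ bsZ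

variable {p : ℕ} [Fact p.Prime]

theorem map_eval_coe {σ : Type} (g : MvPolynomial σ ℤ_[p]) (x : σ → ℤ_[p]) :
    ((eval x g : ℤ_[p]) : ℚ_[p]) =
      eval (fun i => inc p (x i)) (map (PadicInt.Coe.ringHom (p := p)) g) := by
  induction g using MvPolynomial.induction_on with
  | C a => rw [eval_C, map_C, eval_C]; rfl
  | add f g hf hg => rw [map_add, map_add, map_add, PadicInt.coe_add, hf, hg]
  | mul_X f i hf => rw [map_mul, map_mul, map_mul, PadicInt.coe_mul, hf, map_X, eval_X, eval_X]; rfl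

/-- an integral multiple of a polynomial -/
theorem exists_int1 {σ : Type} (g : MvPolynomial σ ℚ_[p]) :
    ∃ (K : ℕ) (g' : MvPolynomial σ ℤ_[p]),
      map (PadicInt.Coe.ringHom (p := p)) g' = C ((p : ℚ_[p]) ^ K) * g := by
  induction g using MvPolynomial.induction_on with
  | C a =>
    obtain ⟨K, hK⟩ := exists_bound (fun _ _ : Fin 1 => a)
    obtain ⟨z, hz⟩ : ∃ z : ℤ_[p], (z : ℚ_[p]) = (p : ℚ_[p]) ^ K * a := ⟨⟨_, hK 0 0⟩, rfl⟩
    refine ⟨K, C z, ?_⟩
    rw [map_C, ← C_mul, ← hz]
    rfl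
  | add f g hf hg =>
    obtain ⟨K, f', hf⟩ := hf
    obtain ⟨L, g', hg⟩ := hg
    refine ⟨K + L, C ((p : ℤ_[p]) ^ L) * f' + C ((p : ℤ_[p]) ^ K) * g', ?_⟩
    have h2 : ∀ k : ℕ, map (PadicInt.Coe.ringHom (p := p)) (C ((p : ℤ_[p]) ^ k) :
        MvPolynomial σ ℤ_[p]) = C ((p : ℚ_[p]) ^ k) := fun k => by
      rw [map_C, map_pow, map_natCast]
    rw [map_add, map_mul, map_mul, hf, hg, h2, h2, pow_add, C_mul]
    ring
  | mul_X f i hf =>
    obtain ⟨K, f', hf⟩ := hf
    refine ⟨K, f' * X i, ?_⟩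
    rw [map_mul, hf, map_X, mul_assoc]

theorem exists_int {σ T : Type} [Fintype T] (g : T → MvPolynomial σ ℚ_[p]) :
    ∃ (K : ℕ) (g' : T → MvPolynomial σ ℤ_[p]), ∀ t,
      map (PadicInt.Coe.ringHom (p := p)) (g' t) = C ((p : ℚ_[p]) ^ K) * g t := by
  choose K g' h using fun t => exists_int1 (g t)
  refine ⟨∑ t, K t, fun t => C ((p : ℤ_[p]) ^ (∑ t, K t - K t)) * g' t, fun t => ?_⟩
  have h1 : K t ≤ ∑ t, K t := Finset.single_le_sum (f := K) (fun _ _ => Nat.zero_le _)
    (Finset.mem_univ t)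
  rw [map_mul, h, map_C, map_pow, map_natCast, ← mul_assoc, ← C_mul, ← pow_add,
    Nat.sub_add_cancel h1]

variable {n : ℕ}

/-- the chart `x_i = 1`, with scaled coordinates -/
noncomputable def chart (i : Fin (n + 1)) (c : Fin n → ℚ_[p]) :
    MvPolynomial (Fin (n + 1)) ℚ_[p] →ₐ[ℚ_[p]] MvPolynomial (Fin n) ℚ_[p] :=
  (aeval (fun k => C (c k) * X k)).comp (dehK i)

theorem chart_same (i : Fin (n + 1)) (c : Fin n → ℚ_[p]) : chart i c (X i) = 1 := by
  unfold chart dehK
  rw [AlgHom.comp_apply, aeval_X, Fin.insertNth_apply_same, map_one]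

theorem chart_above (i : Fin (n + 1)) (c : Fin n → ℚ_[p]) (l : Fin n) :
    chart i c (X (i.succAbove l)) = C (c l) * X l := by
  unfold chart dehK
  rw [AlgHom.comp_apply, aeval_X, Fin.insertNth_apply_succAbove, aeval_X]

theorem eval_chart (i : Fin (n + 1)) (c : Fin n → ℚ_[p]) (q : MvPolynomial (Fin (n + 1)) ℚ_[p])
    (y : Fin n → ℚ_[p]) :
    eval y (chart i c q) = eval (Fin.insertNth i 1 (fun k => c k * y k)) q := by
  have h1 := eval_scl c (fun _ : Fin 1 => dehK i q) 0 y
  rw [eval_dehK] at h1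
  exact h1

theorem pderiv_chart (i : Fin (n + 1)) (c : Fin n → ℚ_[p]) (l : Fin n)
    (q : MvPolynomial (Fin (n + 1)) ℚ_[p]) :
    pderiv l (chart i c q) = C (c l) * chart i c (pderiv (i.succAbove l) q) := by
  induction q using MvPolynomial.induction_on with
  | C a => rw [algHom_C, algebraMap_eq, pderiv_C, pderiv_C, map_zero, mul_zero]
  | add f g hf hg => rw [map_add, map_add, map_add, map_add, hf, hg, mul_add]
  | mul_X f k hf =>
    rw [map_mul, Derivation.leibniz, Derivation.leibniz, map_add, smul_eq_mul, smul_eq_mul,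
      smul_eq_mul, smul_eq_mul, map_mul, map_mul, hf]
    induction k using Fin.succAboveCases i with
    | x =>
      rw [chart_same, pderiv_X, Pi.single_eq_of_ne (Fin.succAbove_ne i l).symm, map_zero,
        ← C_1, pderiv_C]
      ring
    | p k =>
      rw [chart_above, pderiv_X]
      by_cases hkl : k = l
      · subst hkl
        rw [Pi.single_eq_same, map_one, Derivation.leibniz, pderiv_C, pderiv_X_self, smul_eq_mul,
          smul_zero, add_zero]
        ring
      · rw [Pi.single_eq_of_ne (fun h => hkl (Fin.succAbove_right_injective h)),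
          Derivation.leibniz, pderiv_C, pderiv_X_of_ne (fun h => hkl h), map_zero, smul_zero,
          smul_zero, add_zero]
        ring

/-- Euler's relation -/
theorem euler_eval {R : Type} [CommRing R] {σ : Type} [Fintype σ] (f : MvPolynomial σ R) (d : ℕ)
    (hf : f.IsHomogeneous d) (y : σ → R) :
    ∑ i, y i * eval y (pderiv i f) = d * eval y f := by
  have h := congrArg (eval y) (hf.sum_X_mul_pderiv)
  rw [map_sum, map_nsmul] at h
  simp only [map_mul, eval_X] at h
  rw [h, nsmul_eq_mul]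

/-- the gradients at a point of a chart -/
theorem chart_li {T : Type} [Fintype T] (f : T → MvPolynomial (Fin (n + 1)) ℚ) (δ : T → ℕ)
    (hf : ∀ t, (f t).IsHomogeneous (δ t))
    (hNC : NormalCrossings fun t => map (algebraMap ℚ ℂ) (f t)) (i : Fin (n + 1))
    (c : Fin n → ℚ_[p]) (hc : ∀ k, c k ≠ 0) (K : ℕ) (g : T → MvPolynomial (Fin n) ℤ_[p])
    (hg : ∀ t, map (PadicInt.Coe.ringHom (p := p)) (g t) =
      C ((p : ℚ_[p]) ^ K) * chart i c (map (algebraMap ℚ ℚ_[p]) (f t)))
    (x : Fin n → ℤ_[p]) : LinearIndependent ℚ_[p] (grads g x) := by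
  classical
  obtain ⟨φ⟩ := exists_emb p
  have hφ : φ.comp (algebraMap ℚ ℚ_[p]) = algebraMap ℚ ℂ := RingHom.ext_rat _ _
  set y : Fin (n + 1) → ℚ_[p] := Fin.insertNth i 1 (fun k => c k * inc p (x k)) with hy
  have hyi : y i = 1 := by rw [hy, Fin.insertNth_apply_same]
  have hpK := pK_ne p K
  -- the values
  have hev : ∀ t, ((eval x (g t) : ℤ_[p]) : ℚ_[p]) =
      (p : ℚ_[p]) ^ K * eval y (map (algebraMap ℚ ℚ_[p]) (f t)) := by
    intro t
    rw [map_eval_coe, hg, map_mul, eval_C, eval_chart]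
  have hd : ∀ t l, ((eval x (pderiv l (g t)) : ℤ_[p]) : ℚ_[p]) =
      (p : ℚ_[p]) ^ K * (c l *
        eval y (pderiv (i.succAbove l) (map (algebraMap ℚ ℚ_[p]) (f t)))) := by
    intro t l
    rw [map_eval_coe, ← pderiv_map, hg, Derivation.leibniz, pderiv_C, smul_zero, add_zero,
      smul_eq_mul, map_mul, eval_C, pderiv_chart, map_mul, eval_C, eval_chart]
  have hφe : ∀ q : MvPolynomial (Fin (n + 1)) ℚ, φ (eval y (map (algebraMap ℚ ℚ_[p]) q)) =
      eval (fun k => φ (y k)) (map (algebraMap ℚ ℂ) q) := by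
    intro q
    rw [eval_map, eval_map, eval₂_comp_left, hφ]
    rfl
  have hy0 : (fun k => φ (y k)) ≠ 0 := by
    intro h
    have h1 := congrFun h i
    rw [hyi, map_one] at h1
    exact one_ne_zero h1
  have h1 := hNC _ hy0
  rw [Fintype.linearIndependent_iff] at h1 ⊢
  intro l hl t0
  have hS : ∀ t, eval x (g t) = 0 ↔
      eval (fun k => φ (y k)) (map (algebraMap ℚ ℂ) (f t)) = 0 := by
    intro t
    rw [← hφe, map_eq_zero φ, ← PadicInt.coe_eq_zero, hev]
    exact ⟨fun h => (mul_eq_zero.1 h).resolve_left hpK, fun h => by rw [h, mul_zero]⟩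
  -- the relation between the gradients
  have h2 : ∀ k : Fin n, ∑ t : {t // eval x (g t) = 0},
      l t * eval y (pderiv (i.succAbove k) (map (algebraMap ℚ ℚ_[p]) (f t))) = 0 := by
    intro k
    have h3 := congrFun hl k
    rw [Finset.sum_apply, Pi.zero_apply] at h3
    have h4 : (p : ℚ_[p]) ^ K * c k * ∑ t : {t // eval x (g t) = 0},
      l t * eval y (pderiv (i.succAbove k) (map (algebraMap ℚ ℚ_[p]) (f t))) = 0 := by
      refine Eq.trans ?_ h3
      rw [Finset.mul_sum]
      refine Finset.sum_congr rfl fun t _ => ?_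
      rw [Pi.smul_apply, smul_eq_mul, grads, hd]
      ring
    exact (mul_eq_zero.1 h4).resolve_left (mul_ne_zero hpK (hc k))
  have h5 : ∀ k : Fin (n + 1), ∑ t : {t // eval x (g t) = 0},
      l t * eval y (pderiv k (map (algebraMap ℚ ℚ_[p]) (f t))) = 0 := by
    intro k
    induction k using Fin.succAboveCases i with
    | p k => exact h2 k
    | x =>
      have h6 : ∀ t : {t // eval x (g t) = 0},
          eval y (pderiv i (map (algebraMap ℚ ℚ_[p]) (f t))) =
          -∑ k : Fin n, y (i.succAbove k) *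
            eval y (pderiv (i.succAbove k) (map (algebraMap ℚ ℚ_[p]) (f t))) := by
        intro t
        have h7 := euler_eval (map (algebraMap ℚ ℚ_[p]) (f t)) (δ t) ((hf t).map _) y
        have h8 : eval y (map (algebraMap ℚ ℚ_[p]) (f t)) = 0 := by
          have h9 := hev t
          rw [t.2, PadicInt.coe_zero] at h9
          exact (mul_eq_zero.1 h9.symm).resolve_left hpK
        rw [h8, mul_zero, Fin.sum_univ_succAbove _ i, hyi, one_mul] at h7
        exact eq_neg_of_add_eq_zero_left h7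
      simp only [h6, mul_neg, Finset.mul_sum]
      rw [Finset.sum_neg_distrib, Finset.sum_comm, neg_eq_zero]
      refine Finset.sum_eq_zero fun k _ => ?_
      have h9 := h2 k
      refine Eq.trans ?_ (congrArg (fun z => y (i.succAbove k) * z) h9 |>.trans (mul_zero _))
      rw [Finset.mul_sum]
      exact Finset.sum_congr rfl fun t _ => by ring
  -- over the complex numbers
  have h10 := h1 (fun t => φ (l ⟨t.1, (hS t.1).2 t.2⟩)) (by
    funext k
    rw [Finset.sum_apply, Pi.zero_apply]
    have h11 := congrArg φ (h5 k)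
    rw [map_sum, map_zero] at h11
    refine Eq.trans ?_ h11
    refine Fintype.sum_equiv (Equiv.subtypeEquivRight fun t => (hS t).symm) _ _ fun t => ?_
    rw [Pi.smul_apply, smul_eq_mul, map_mul]
    congr 1
    rw [pderiv_map, pderiv_map, hφe]
    rfl) ⟨t0.1, (hS t0.1).1 t0.2⟩
  exact (map_eq_zero φ).1 h10

end Pool.Agent.U841.PA
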