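import Pool.Agent.W427.SMC.Pa1

set_option autoImplicit false
set_option linter.unusedSectionVars false
set_option linter.unusedVariables false

/-! # Integration over `ℤ_p ^ n` -/

namespace Pool.Agent.U841.PA

open MeasureTheory Pool.Agent.W427.SMC
open scoped ENNReal

attribute [local instance] msZ bsZ

variable {p : ℕ} [Fact p.Prime] {σ : Type} [Fintype σ]

/-- the Haar measure of `ℤ_p ^ n` -/
noncomputable def mG (p : ℕ) [Fact p.Prime] (σ : Type) [Fintype σ] : Measure (σ → ℤ_[p]) :=
  Measure.pi fun _ : σ => mu p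

instance : IsProbabilityMeasure (mG p σ) := by unfold mG; infer_instance

instance : (mG p σ).IsAddLeftInvariant := by unfold mG; infer_instance

theorem mG_unique (ν : Measure (σ → ℤ_[p])) [IsProbabilityMeasure ν] [ν.IsAddLeftInvariant] :
    ν = mG p σ := by
  have h1 := Measure.addHaarMeasure_unique ν (⊤ : TopologicalSpace.PositiveCompacts (σ → ℤ_[p]))
  have h2 := Measure.addHaarMeasure_unique (mG p σ)
    (⊤ : TopologicalSpace.PositiveCompacts (σ → ℤ_[p]))
  rw [h1, h2]
  have h3 : ν ((⊤ : TopologicalSpace.PositiveCompacts (σ → ℤ_[p])) : Set (σ → ℤ_[p])) = 1 :=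
    measure_univ
  have h4 : (mG p σ) ((⊤ : TopologicalSpace.PositiveCompacts (σ → ℤ_[p])) : Set (σ → ℤ_[p])) = 1 :=
    measure_univ
  rw [h3, h4]

/-- **Averages over the cosets of the image of an endomorphism.** -/
theorem avg_measure (L : (σ → ℤ_[p]) →+ (σ → ℤ_[p])) (hL : Continuous L)
    [Fintype ((σ → ℤ_[p]) ⧸ L.range)] :
    mG p σ = ((Fintype.card ((σ → ℤ_[p]) ⧸ L.range) : ℝ≥0∞)⁻¹) •
      ∑ q : (σ → ℤ_[p]) ⧸ L.range, Measure.map (fun w => q.out + L w) (mG p σ) := by
  classical
  set ν : Measure (σ → ℤ_[p]) := ((Fintype.card ((σ → ℤ_[p]) ⧸ L.range) : ℝ≥0∞)⁻¹) •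
      ∑ q : (σ → ℤ_[p]) ⧸ L.range, Measure.map (fun w => q.out + L w) (mG p σ) with hν
  have hmeas : ∀ c : σ → ℤ_[p], Measurable fun w => c + L w := fun c =>
    (continuous_const.add hL).measurable
  have hprob : ∀ c : σ → ℤ_[p], IsProbabilityMeasure (Measure.map (fun w => c + L w) (mG p σ)) :=
    fun c => Measure.isProbabilityMeasure_map (hmeas c).aemeasurable
  have hcard : (Fintype.card ((σ → ℤ_[p]) ⧸ L.range) : ℝ≥0∞) ≠ 0 := by
    exact_mod_cast (Fintype.card_pos_iff.2 ⟨(QuotientAddGroup.mk 0)⟩).ne'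
  have hp : IsProbabilityMeasure ν := by
    refine ⟨?_⟩
    rw [hν, Measure.smul_apply, Measure.finsetSum_apply]
    have h1 : ∀ q ∈ (Finset.univ : Finset ((σ → ℤ_[p]) ⧸ L.range)),
        Measure.map (fun w => q.out + L w) (mG p σ) Set.univ = 1 := fun q _ => measure_univ
    rw [Finset.sum_congr rfl h1, Finset.sum_const, Finset.card_univ, nsmul_eq_mul, mul_one,
      smul_eq_mul]
    exact ENNReal.inv_mul_cancel hcard (ENNReal.natCast_ne_top _)
  have hinv : ν.IsAddLeftInvariant := by
    refine ⟨fun g => ?_⟩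
    rw [hν, Measure.map_smul, Measure.map_finset_sum (measurable_const_add g).aemeasurable]
    congr 1
    have h1 : ∀ q : (σ → ℤ_[p]) ⧸ L.range,
        Measure.map (fun x => g + x) (Measure.map (fun w => q.out + L w) (mG p σ)) =
        Measure.map (fun w => ((QuotientAddGroup.mk g + q : (σ → ℤ_[p]) ⧸ L.range)).out + L w)
          (mG p σ) := by
      intro q
      set q' : (σ → ℤ_[p]) ⧸ L.range := QuotientAddGroup.mk g + q with hq'
      obtain ⟨h, hh⟩ : ∃ h, g + q.out = q'.out + L h := by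
        have h2 : (QuotientAddGroup.mk (g + q.out) : (σ → ℤ_[p]) ⧸ L.range) =
            QuotientAddGroup.mk q'.out := by
          rw [QuotientAddGroup.mk_add, QuotientAddGroup.out_eq', QuotientAddGroup.out_eq']
        rw [eq_comm, QuotientAddGroup.eq] at h2
        obtain ⟨h, hh⟩ := h2
        exact ⟨h, by rw [hh]; abel⟩
      rw [Measure.map_map (measurable_const_add g) (hmeas _)]
      have h3 : (fun x => g + x) ∘ (fun w => q.out + L w) =
          (fun w => q'.out + L w) ∘ fun w => h + w := by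
        funext w
        change g + (q.out + L w) = q'.out + L (h + w)
        rw [map_add, ← add_assoc, hh, add_assoc]
      rw [h3, ← Measure.map_map (hmeas _) (measurable_const_add h), map_add_left_eq_self]
    rw [Finset.sum_congr rfl fun q _ => h1 q]
    exact Fintype.sum_equiv (Equiv.addLeft (QuotientAddGroup.mk g : (σ → ℤ_[p]) ⧸ L.range)) _ _
      fun q => rfl
  exact (mG_unique ν).symm

theorem avg_integral (L : (σ → ℤ_[p]) →+ (σ → ℤ_[p])) (hL : Continuous L)
    [Fintype ((σ → ℤ_[p]) ⧸ L.range)] (φ : (σ → ℤ_[p]) → ℝ) (hφ : Continuous φ) :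
    ∫ x, φ x ∂(mG p σ) = ((Fintype.card ((σ → ℤ_[p]) ⧸ L.range) : ℝ)⁻¹) *
      ∑ q : (σ → ℤ_[p]) ⧸ L.range, ∫ w, φ (q.out + L w) ∂(mG p σ) := by
  have hmeas : ∀ c : σ → ℤ_[p], Measurable fun w => c + L w := fun c =>
    (continuous_const.add hL).measurable
  have hprob : ∀ c : σ → ℤ_[p], IsProbabilityMeasure (Measure.map (fun w => c + L w) (mG p σ)) :=
    fun c => Measure.isProbabilityMeasure_map (hmeas c).aemeasurable
  conv_lhs => rw [avg_measure L hL]
  rw [integral_smul_measure, integral_finsetSum_measure]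
  · rw [ENNReal.toReal_inv, ENNReal.toReal_natCast, smul_eq_mul]
    congr 1
    refine Finset.sum_congr rfl fun q _ => ?_
    rw [integral_map (hmeas _).aemeasurable hφ.aestronglyMeasurable]
  · intro q _
    exact hφ.integrable_of_hasCompactSupport (HasCompactSupport.of_compactSpace φ)

end Pool.Agent.U841.PA
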