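import Mathlib

set_option autoImplicit false

/-! # Taylor estimates for polynomials over `ℤ_p` -/

namespace Pool.Agent.U841.PA

open MvPolynomial

variable {p : ℕ} [Fact p.Prime] {σ : Type} [Fintype σ]

theorem norm_sum_le_of {ι : Type} (s : Finset ι) (g : ι → ℤ_[p]) (C : ℝ) (hC : 0 ≤ C)
    (h : ∀ i ∈ s, ‖g i‖ ≤ C) : ‖∑ i ∈ s, g i‖ ≤ C := by
  classical
  induction s using Finset.induction_on with
  | empty => rw [Finset.sum_empty, norm_zero]; exact hC
  | insert a s ha ih =>
    rw [Finset.sum_insert ha]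
    exact (PadicInt.nonarchimedean _ _).trans (max_le (h a (Finset.mem_insert_self _ _))
      (ih fun i hi => h i (Finset.mem_insert_of_mem hi)))

theorem norm_add_le_of (a b : ℤ_[p]) (C : ℝ) (ha : ‖a‖ ≤ C) (hb : ‖b‖ ≤ C) : ‖a + b‖ ≤ C :=
  (PadicInt.nonarchimedean _ _).trans (max_le ha hb)

theorem mul_le_left (a b : ℤ_[p]) (C : ℝ) (ha : ‖a‖ ≤ C) : ‖a * b‖ ≤ C := by
  rw [norm_mul]
  calc ‖a‖ * ‖b‖ ≤ ‖a‖ * 1 := by gcongr; exact PadicInt.norm_le_one b
    _ ≤ C := by rw [mul_one]; exact ha

theorem mul_le_right (a b : ℤ_[p]) (C : ℝ) (hb : ‖b‖ ≤ C) : ‖a * b‖ ≤ C := by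
  rw [mul_comm]
  exact mul_le_left b a C hb

/-- the estimate of order zero -/
theorem tay0 (f : MvPolynomial σ ℤ_[p]) (x h : σ → ℤ_[p]) :
    ‖eval (x + h) f - eval x f‖ ≤ ‖h‖ := by
  induction f using MvPolynomial.induction_on with
  | C a => rw [eval_C, eval_C, sub_self, norm_zero]; exact norm_nonneg _
  | add f g hf hg =>
    rw [map_add, map_add]
    have : eval (x + h) f + eval (x + h) g - (eval x f + eval x g) =
        (eval (x + h) f - eval x f) + (eval (x + h) g - eval x g) := by ring
    rw [this]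
    exact norm_add_le_of _ _ _ hf hg
  | mul_X f i hf =>
    rw [map_mul, map_mul, eval_X, eval_X, Pi.add_apply]
    have : eval (x + h) f * (x i + h i) - eval x f * x i =
        (eval (x + h) f - eval x f) * x i + eval (x + h) f * h i := by ring
    rw [this]
    exact norm_add_le_of _ _ _ (mul_le_left _ _ _ hf) (mul_le_right _ _ _ (norm_le_pi_norm h i))

/-- the estimate of order one -/
theorem tay1 (f : MvPolynomial σ ℤ_[p]) (x h : σ → ℤ_[p]) :
    ‖eval (x + h) f - eval x f - ∑ j, h j * eval x (pderiv j f)‖ ≤ ‖h‖ ^ 2 := by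
  classical
  induction f using MvPolynomial.induction_on with
  | C a =>
    rw [eval_C, eval_C, sub_self, Finset.sum_eq_zero (fun j _ => by rw [pderiv_C, map_zero,
      mul_zero]), sub_zero, norm_zero]
    positivity
  | add f g hf hg =>
    have h1 : ∑ j, h j * eval x (pderiv j (f + g)) =
        ∑ j, h j * eval x (pderiv j f) + ∑ j, h j * eval x (pderiv j g) := by
      rw [← Finset.sum_add_distrib]
      exact Finset.sum_congr rfl fun j _ => by rw [map_add, map_add, mul_add]
    rw [h1, map_add, map_add]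
    have : eval (x + h) f + eval (x + h) g - (eval x f + eval x g) -
        (∑ j, h j * eval x (pderiv j f) + ∑ j, h j * eval x (pderiv j g)) =
        (eval (x + h) f - eval x f - ∑ j, h j * eval x (pderiv j f)) +
        (eval (x + h) g - eval x g - ∑ j, h j * eval x (pderiv j g)) := by ring
    rw [this]
    exact norm_add_le_of _ _ _ hf hg
  | mul_X f i hf =>
    have h1 : ∑ j, h j * eval x (pderiv j (f * X i)) =
        (∑ j, h j * eval x (pderiv j f)) * x i + eval x f * h i := by
      have h2 : ∀ j, h j * eval x (pderiv j (f * X i)) =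
          h j * eval x (pderiv j f) * x i + (if j = i then eval x f * h i else 0) := by
        intro j
        rw [Derivation.leibniz, smul_eq_mul, smul_eq_mul, pderiv_X, map_add, map_mul, map_mul,
          eval_X, Pi.single_apply]
        by_cases hji : j = i
        · rw [if_pos hji.symm, if_pos hji, map_one, hji]
          ring
        · rw [if_neg (fun h => hji h.symm), if_neg hji, map_zero]
          ring
      rw [Finset.sum_congr rfl fun j _ => h2 j, Finset.sum_add_distrib, ← Finset.sum_mul,
        Finset.sum_ite_eq' Finset.univ i, if_pos (Finset.mem_univ i)]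
    rw [h1, map_mul, map_mul, eval_X, eval_X, Pi.add_apply]
    have : eval (x + h) f * (x i + h i) - eval x f * x i -
        ((∑ j, h j * eval x (pderiv j f)) * x i + eval x f * h i) =
        (eval (x + h) f - eval x f - ∑ j, h j * eval x (pderiv j f)) * x i +
        (eval (x + h) f - eval x f) * h i := by ring
    rw [this]
    refine norm_add_le_of _ _ _ (mul_le_left _ _ _ hf) ?_
    rw [norm_mul, pow_two]
    gcongr
    · exact tay0 f x h
    · exact norm_le_pi_norm h i

/-- the estimate with the derivatives at another point -/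
theorem tay2 (f : MvPolynomial σ ℤ_[p]) (x z h : σ → ℤ_[p]) (ε : ℝ) (h1 : ‖h‖ ≤ ε)
    (h2 : ‖z - x‖ ≤ ε) :
    ‖eval (z + h) f - eval z f - ∑ j, h j * eval x (pderiv j f)‖ ≤ ‖h‖ * ε := by
  have hε : 0 ≤ ε := (norm_nonneg _).trans h1
  have h3 : eval (z + h) f - eval z f - ∑ j, h j * eval x (pderiv j f) =
      (eval (z + h) f - eval z f - ∑ j, h j * eval z (pderiv j f)) +
      ∑ j, h j * (eval z (pderiv j f) - eval x (pderiv j f)) := by
    simp only [mul_sub, Finset.sum_sub_distrib]
    ring
  rw [h3]
  refine norm_add_le_of _ _ _ ((tay1 f z h).trans ?_) (norm_sum_le_of _ _ _ (by positivity)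
    fun j _ => ?_)
  · rw [pow_two]
    gcongr
  · rw [norm_mul]
    gcongr
    · exact norm_le_pi_norm h j
    · have h4 := tay0 (pderiv j f) x (z - x)
      rw [add_sub_cancel] at h4
      exact h4.trans h2

end Pool.Agent.U841.PA
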