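import Pool.Agent.U841.PA.Haar
import Pool.Agent.U841.PA.Tay

set_option autoImplicit false
set_option linter.unusedSectionVars false
set_option linter.unusedVariables false

/-! # Linear algebra over `ℚ_p` and `ℤ_p` -/

namespace Pool.Agent.U841.PA

open MeasureTheory Pool.Agent.W427.SMC

/-- linearly independent vectors as rows of an invertible matrix -/
theorem exists_matrix {K : Type} [Field K] {σ κ : Type} [Fintype σ] [DecidableEq σ]
    (v : κ → σ → K) (hli : LinearIndependent K v) : ∃ (W : Matrix σ σ K) (e : κ → σ),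
      Function.Injective e ∧ IsUnit W ∧ ∀ j, W (e j) = v j := by
  classical
  have hvinj : Function.Injective v := hli.injective
  have hlo : LinearIndepOn K id (Set.range v) := hli.linearIndepOn_id
  set S : Set (σ → K) := hlo.extend (Set.subset_univ _) with hS
  set B : Module.Basis S K (σ → K) := Module.Basis.extend hlo with hB
  have hBx : ∀ x : S, B x = x := fun x => Module.Basis.extend_apply_self hlo x
  have hBfin : Finite S := Module.Finite.finite_basis B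
  have _ := Fintype.ofFinite S
  have hcard : Fintype.card S = Fintype.card σ := by
    rw [← Module.finrank_eq_card_basis B, Module.finrank_fintype_fun_eq_card]
  set ε : S ≃ σ := Fintype.equivOfCardEq hcard with hε
  have hsub : ∀ j, v j ∈ S := fun j => Module.Basis.subset_extend hlo ⟨j, rfl⟩
  refine ⟨Matrix.of fun s => B (ε.symm s), fun j => ε ⟨v j, hsub j⟩, ?_, ?_, fun j => ?_⟩
  · intro x y hxy
    exact hvinj (congrArg Subtype.val (ε.injective hxy))
  · have hli2 : LinearIndependent K fun s => B (ε.symm s) :=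
      B.linearIndependent.comp _ ε.symm.injective
    exact Matrix.linearIndependent_rows_iff_isUnit.1 hli2
  · change B (ε.symm (ε ⟨v j, hsub j⟩)) = v j
    rw [Equiv.symm_apply_apply, hBx]

attribute [local instance] msZ bsZ

variable {p : ℕ} [Fact p.Prime] {σ : Type} [Fintype σ]

theorem pK_ne (p : ℕ) [Fact p.Prime] (k : ℕ) : ((p : ℚ_[p]) ^ k) ≠ 0 :=
  pow_ne_zero _ (by exact_mod_cast (Fact.out : p.Prime).ne_zero)

/-- a bound for the norms of the entries of a matrix -/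
theorem exists_bound {ι κ : Type} [Fintype ι] [Fintype κ] (M : ι → κ → ℚ_[p]) :
    ∃ k : ℕ, ∀ i j, ‖(p : ℚ_[p]) ^ k * M i j‖ ≤ 1 := by
  classical
  obtain ⟨C, hC⟩ : ∃ C : ℝ, ∀ i j, ‖M i j‖ ≤ C := by
    refine ⟨∑ i, ∑ j, ‖M i j‖, fun i j => ?_⟩
    have h1 : ‖M i j‖ ≤ ∑ j, ‖M i j‖ :=
      Finset.single_le_sum (f := fun j => ‖M i j‖) (fun _ _ => norm_nonneg _) (Finset.mem_univ j)
    exact h1.trans (Finset.single_le_sum (f := fun i => ∑ j, ‖M i j‖)
      (fun _ _ => Finset.sum_nonneg fun _ _ => norm_nonneg _) (Finset.mem_univ i))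
  have hp : (1 : ℝ) < p := by exact_mod_cast (Fact.out : p.Prime).one_lt
  obtain ⟨k, hk⟩ := pow_unbounded_of_one_lt C hp
  refine ⟨k, fun i j => ?_⟩
  rw [norm_mul, norm_pow, Padic.norm_p, inv_pow, inv_mul_le_iff₀ (by positivity), mul_one]
  exact (hC i j).trans hk.le

theorem norm_sum_le_ofQ {ι : Type} (s : Finset ι) (g : ι → ℚ_[p]) (C : ℝ) (hC : 0 ≤ C)
    (h : ∀ i ∈ s, ‖g i‖ ≤ C) : ‖∑ i ∈ s, g i‖ ≤ C := by
  classical
  induction s using Finset.induction_on with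
  | empty => rw [Finset.sum_empty, norm_zero]; exact hC
  | insert a s ha ih =>
    rw [Finset.sum_insert ha]
    exact (Padic.nonarchimedean _ _).trans (max_le (h a (Finset.mem_insert_self _ _))
      (ih fun i hi => h i (Finset.mem_insert_of_mem hi)))

/-- the multiplication by an integral multiple of the inverse matrix -/
theorem exists_avg [DecidableEq σ] (W : Matrix σ σ ℚ_[p]) (hW : IsUnit W) :
    ∃ (k : ℕ) (L : (σ → ℤ_[p]) →+ (σ → ℤ_[p])), Continuous L ∧ IsOpen (L.range : Set (σ → ℤ_[p])) ∧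
      ∀ w i, ∑ j, W i j * (L w j : ℚ_[p]) = (p : ℚ_[p]) ^ k * (w i : ℚ_[p]) := by
  classical
  obtain ⟨k, hk⟩ := exists_bound (fun i j => W⁻¹ i j)
  let M : Matrix σ σ ℤ_[p] := fun i j => ⟨(p : ℚ_[p]) ^ k * W⁻¹ i j, hk i j⟩
  let L : (σ → ℤ_[p]) →+ (σ → ℤ_[p]) := (Matrix.mulVecLin M).toAddMonoidHom
  have hL : ∀ w i, L w i = ∑ j, M i j * w j := fun w i => rfl
  have hMc : ∀ i j, ((M i j : ℤ_[p]) : ℚ_[p]) = (p : ℚ_[p]) ^ k * W⁻¹ i j := fun i j => rfl
  have hLc : ∀ w i, ((L w i : ℤ_[p]) : ℚ_[p]) =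
      (p : ℚ_[p]) ^ k * ∑ j, W⁻¹ i j * (w j : ℚ_[p]) := by
    intro w i
    rw [hL, PadicInt.coe_sum, Finset.mul_sum]
    refine Finset.sum_congr rfl fun j _ => ?_
    rw [PadicInt.coe_mul, hMc, mul_assoc]
  have hWi : W * W⁻¹ = 1 := Matrix.mul_nonsing_inv W ((Matrix.isUnit_iff_isUnit_det W).1 hW)
  have hiW : W⁻¹ * W = 1 := Matrix.nonsing_inv_mul W ((Matrix.isUnit_iff_isUnit_det W).1 hW)
  refine ⟨k, L, ?_, ?_, ?_⟩
  · refine continuous_pi fun i => ?_
    simp only [hL]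
    exact continuous_finsetSum _ fun j _ => continuous_const.mul (continuous_apply j)
  · obtain ⟨l, hl⟩ := exists_bound (fun i j => ((p : ℚ_[p]) ^ k)⁻¹ * W i j)
    refine AddSubgroup.isOpen_of_mem_nhds (g := 0) _ ?_
    refine Filter.mem_of_superset (Metric.closedBall_mem_nhds (0 : σ → ℤ_[p])
      (show (0 : ℝ) < (p : ℝ)⁻¹ ^ l from pow_pos (inv_pos.2 (by
        exact_mod_cast (Fact.out : p.Prime).pos)) l)) ?_
    intro x hx
    rw [Metric.mem_closedBall, dist_zero_right] at hx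
    have hw : ∀ i, ‖∑ j, ((p : ℚ_[p]) ^ k)⁻¹ * W i j * (x j : ℚ_[p])‖ ≤ 1 := by
      intro i
      refine norm_sum_le_ofQ _ _ _ zero_le_one fun j _ => ?_
      rw [norm_mul]
      have h1 := hl i j
      have h2 : ‖(x j : ℚ_[p])‖ ≤ (p : ℝ)⁻¹ ^ l := (norm_le_pi_norm x j).trans hx
      rw [norm_mul, norm_pow, Padic.norm_p] at h1
      calc ‖((p : ℚ_[p]) ^ k)⁻¹ * W i j‖ * ‖(x j : ℚ_[p])‖ ≤
          ‖((p : ℚ_[p]) ^ k)⁻¹ * W i j‖ * (p : ℝ)⁻¹ ^ l := by gcongr
        _ = (p : ℝ)⁻¹ ^ l * ‖((p : ℚ_[p]) ^ k)⁻¹ * W i j‖ := mul_comm _ _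
        _ ≤ 1 := h1
    let w0 : σ → ℤ_[p] := fun i => ⟨∑ j, ((p : ℚ_[p]) ^ k)⁻¹ * W i j * (x j : ℚ_[p]), hw i⟩
    have hw0 : ∀ i, ((w0 i : ℤ_[p]) : ℚ_[p]) =
      ∑ j, ((p : ℚ_[p]) ^ k)⁻¹ * W i j * (x j : ℚ_[p]) := fun i => rfl
    refine ⟨w0, ?_⟩
    funext i
    apply Subtype.ext
    refine (hLc w0 i).trans ?_
    simp only [hw0]
    have h3 : ∑ j, W⁻¹ i j * (∑ l, ((p : ℚ_[p]) ^ k)⁻¹ * W j l * (x l : ℚ_[p])) =
        ((p : ℚ_[p]) ^ k)⁻¹ * ∑ l, (∑ j, W⁻¹ i j * W j l) * (x l : ℚ_[p]) := by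
      simp only [Finset.mul_sum, Finset.sum_mul]
      rw [Finset.sum_comm]
      exact Finset.sum_congr rfl fun l _ => Finset.sum_congr rfl fun j _ => by ring
    have h4 : ∀ l, ∑ j, W⁻¹ i j * W j l = if i = l then 1 else 0 := by
      intro l
      have h5 := congrFun (congrFun hiW i) l
      rw [Matrix.mul_apply, Matrix.one_apply] at h5
      exact h5
    rw [h3, ← mul_assoc, mul_inv_cancel₀ (pK_ne p k), one_mul]
    simp only [h4, ite_mul, one_mul, zero_mul, Finset.sum_ite_eq, Finset.mem_univ, if_true]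
  · intro w i
    have h3 : ∑ j, W i j * ((L w j : ℤ_[p]) : ℚ_[p]) =
        (p : ℚ_[p]) ^ k * ∑ l, (∑ j, W i j * W⁻¹ j l) * (w l : ℚ_[p]) := by
      simp only [hLc, Finset.mul_sum, Finset.sum_mul]
      rw [Finset.sum_comm]
      exact Finset.sum_congr rfl fun l _ => Finset.sum_congr rfl fun j _ => by ring
    have h4 : ∀ l, ∑ j, W i j * W⁻¹ j l = if i = l then 1 else 0 := by
      intro l
      have h5 := congrFun (congrFun hWi i) l
      rw [Matrix.mul_apply, Matrix.one_apply] at h5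
      exact h5
    rw [h3]
    simp only [h4, ite_mul, one_mul, zero_mul, Finset.sum_ite_eq, Finset.mem_univ, if_true]

end Pool.Agent.U841.PA
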