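import Pool.Agent.U841.PA.Iso
import Pool.Agent.Y230.PS.Fam

set_option autoImplicit false
set_option linter.unusedSectionVars false
set_option linter.unusedVariables false

/-! # Integrals of monomials over cosets of boxes -/

namespace Pool.Agent.U841.PA

open MeasureTheory Pool.Agent.W427.SMC Pool.Agent.Y230.PT Pool.Agent.Y230.PS
open scoped ENNReal

attribute [local instance] msZ bsZ msK bsK

variable {p : ℕ} [Fact p.Prime]

/-- `FZ` as an integral of real numbers -/
theorem FZ_eq {Ω : Type} [MeasurableSpace Ω] (μ : Measure Ω) (ρ : Ω → ℝ) (hρ : ∀ x, 0 ≤ ρ x)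
    (hm : Measurable ρ) (s : ℝ) : FZ μ ρ s = ((∫ x, ρ x ^ s ∂μ : ℝ) : ℂ) := by
  unfold FZ
  rw [integral_eq_lintegral_of_nonneg_ae (Filter.Eventually.of_forall fun x =>
    Real.rpow_nonneg (hρ x) s) (hm.pow_const s).aestronglyMeasurable]

theorem inc_cont : Continuous (inc p) := (inc_emb p).continuous

/-- the size function of one factor -/
noncomputable def r1 (γ : ℚ_[p]) (K A : ℕ) (z : ℤ_[p]) : ℝ :=
  ‖γ + (p : ℚ_[p]) ^ K * inc p z‖ ^ A

theorem r1_nonneg (γ : ℚ_[p]) (K A : ℕ) (z : ℤ_[p]) : 0 ≤ r1 γ K A z := by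
  unfold r1; positivity

theorem r1_cont (γ : ℚ_[p]) (K A : ℕ) : Continuous (r1 γ K A) := by
  unfold r1
  exact (continuous_norm.comp (continuous_const.add (continuous_const.mul inc_cont))).pow A

/-- **The integral of one factor.** -/
theorem FR_one (γ : ℚ_[p]) (K A : ℕ) :
    FR p (fun T => if T ^ A = (p : ℂ) then 1 else 0) (FZ (mu p) (r1 γ K A)) := by
  classical
  have hp0 : (p : ℚ_[p]) ≠ 0 := by exact_mod_cast (Fact.out : p.Prime).ne_zero
  intro T0 hT0
  -- the value
  have key : ∀ s : ℝ, 0 ≤ s → FZ (mu p) (r1 γ K A) s =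
      ((p : ℂ) ^ K) * ((I1 s A 1 γ K).toReal : ℂ) := by
    intro s hs
    have h1 : ∀ z : ℤ_[p], ENNReal.ofReal (r1 γ K A z ^ s) =
        w s A 1 (γ + (p : ℚ_[p]) ^ K * inc p z) := by
      intro z
      unfold r1 w
      rw [Nat.sub_self, pow_zero, mul_one, N, ← ENNReal.ofReal_pow (by positivity),
        ← Real.rpow_natCast, ← Real.rpow_natCast, ← Real.rpow_mul (norm_nonneg _),
        ← Real.rpow_mul (norm_nonneg _), mul_comm (A : ℝ) s]
    unfold FZ
    simp only [h1]
    rw [← lintegral_unit p (fun x => w s A 1 (γ + (p : ℚ_[p]) ^ K * x))]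
    -- the substitution
    have h2 : I1 s A 1 γ K = N p 1 ((p : ℚ_[p]) ^ K) *
        ∫⁻ x in Metric.closedBall 0 1, w s A 1 (γ + (p : ℚ_[p]) ^ K * x) ∂(nu p) := by
      unfold I1
      rw [← lintegral_indicator (bl_meas γ K), ← lintegral_indicator
        Metric.isClosed_closedBall.measurableSet, ← lintegral_shift p γ,
        ← lintegral_scale p ((p : ℚ_[p]) ^ K) (pow_ne_zero _ hp0)]
      congr 1
      refine lintegral_congr fun x => ?_
      by_cases hx : ‖x‖ ≤ 1
      · rw [Set.indicator_of_mem, Set.indicator_of_mem]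
        · rw [Metric.mem_closedBall, dist_zero_right]
          exact hx
        · rw [mem_bl, add_sub_cancel_left, norm_mul, norm_pow, Padic.norm_p, qr]
          calc (p : ℝ)⁻¹ ^ K * ‖x‖ ≤ (p : ℝ)⁻¹ ^ K * 1 := by gcongr
            _ = _ := mul_one _
      · rw [Set.indicator_of_notMem, Set.indicator_of_notMem]
        · rw [Metric.mem_closedBall, dist_zero_right]
          exact hx
        · rw [mem_bl, add_sub_cancel_left, norm_mul, norm_pow, Padic.norm_p, qr, not_le]
          calc (p : ℝ)⁻¹ ^ K = (p : ℝ)⁻¹ ^ K * 1 := (mul_one _).symm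
            _ < (p : ℝ)⁻¹ ^ K * ‖x‖ := by
              have := pinv_pos p K
              have := not_le.1 hx
              gcongr
    rw [h2, ENNReal.toReal_mul, N_toReal, norm_pow, Padic.norm_p, Real.rpow_one]
    push_cast
    rw [← mul_assoc, ← mul_pow, mul_inv_cancel₀ (by exact_mod_cast (Fact.out : p.Prime).ne_zero),
      one_pow, one_mul]
  by_cases hT : T0 ^ A = (p : ℂ)
  · by_cases hn : ‖T0‖ ≤ 1
    · refine ⟨0, by simp, ((Reg.const ((p : ℂ) ^ K)).mul0 (reg_I1 hT0 A 1 le_rfl ?_ γ K)).congr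
        fun s hs => (key s hs).symm⟩
      exact not_crit_small hn A 1 le_rfl
    · refine ⟨1, ?_, ((Reg.const ((p : ℂ) ^ K)).mul0 (reg_I1' hT0 A 1 le_rfl γ K)).congr
        fun s hs => (key s hs).symm⟩
      rw [Pool.Agent.Y230.PS.tr, if_neg hn, if_pos hT]
      simp
  · refine ⟨0, by simp, ((Reg.const ((p : ℂ) ^ K)).mul0 (reg_I1 hT0 A 1 le_rfl ?_ γ K)).congr
      fun s hs => (key s hs).symm⟩
    unfold Crit
    rwa [pow_one]

/-- products -/
theorem FR.prod' {ι : Type} (S : Finset ι) (m : ι → ℂ → ℕ∞) (F : ι → ℝ → ℂ)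
    (h : ∀ i ∈ S, FR p (m i) (F i)) : FR p (fun T => ∑ i ∈ S, m i T) (fun s => ∏ i ∈ S, F i s) := by
  classical
  induction S using Finset.induction_on with
  | empty =>
    simp only [Finset.prod_empty, Finset.sum_empty]
    exact FR_const _ 1
  | insert i t hi ih =>
    simp only [Finset.prod_insert hi, Finset.sum_insert hi]
    exact FR.mul (h i (Finset.mem_insert_self _ _))
      (ih fun j hj => h j (Finset.mem_insert_of_mem hj)) fun T _ => le_rfl

variable {σ : Type} [Fintype σ]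

/-- **The integral of a product of independent factors.** -/
theorem FR_box (γ : σ → ℚ_[p]) (K : ℕ) (A : σ → ℕ) :
    FR p (fun T => ∑ i, if T ^ A i = (p : ℂ) then 1 else 0)
      (FZ (mG p σ) fun x => ∏ i, r1 (γ i) K (A i) (x i)) := by
  refine (FR.prod' Finset.univ _ _ fun i _ => FR_one (γ i) K (A i)).congr fun s hs => ?_
  have hm : Measurable fun x : σ → ℤ_[p] => ∏ i, r1 (γ i) K (A i) (x i) :=
    (continuous_finsetProd _ fun i _ => (r1_cont _ _ _).comp (continuous_apply i)).measurable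
  rw [FZ_eq _ _ (fun x => Finset.prod_nonneg fun i _ => r1_nonneg _ _ _ _) hm]
  have h1 : ∀ x : σ → ℤ_[p], (∏ i, r1 (γ i) K (A i) (x i)) ^ s =
      ∏ i, (fun z => r1 (γ i) K (A i) z ^ s) (x i) := fun x =>
    (Real.finsetProd_rpow Finset.univ _ (fun i _ => r1_nonneg _ _ _ _) s).symm
  simp only [h1]
  unfold mG
  rw [integral_fintype_prod_eq_prod (𝕜 := ℝ) (fun i z => r1 (γ i) K (A i) z ^ s),
    Complex.ofReal_prod]
  refine Finset.prod_congr rfl fun i _ => ?_
  exact FZ_eq _ _ (r1_nonneg _ _ _) (r1_cont _ _ _).measurable s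

end Pool.Agent.U841.PA
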