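import Pool.Agent.U841.PA.Chart
import Pool.Agent.U841.PA.One

set_option autoImplicit false
set_option linter.unusedSectionVars false
set_option linter.unusedVariables false

/-! # The integral near a point with normal crossings -/

namespace Pool.Agent.U841.PA

open MeasureTheory MvPolynomial Pool.Agent.W427.SMC Pool.Agent.Y230.PT Pool.Agent.Y230.PS
open scoped ENNReal

attribute [local instance] msZ bsZ

variable {p : ℕ} [Fact p.Prime] {σ : Type} [Fintype σ] [DecidableEq σ] {T : Type} [Fintype T]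

/-- products of powers of independent linear forms -/
theorem FR_lin {κ : Type} [Fintype κ] (W : Matrix σ σ ℚ_[p]) (hW : IsUnit W) (e : κ → σ)
    (he : Function.Injective e) (γ : κ → ℚ_[p]) (N : ℕ) (a : κ → ℕ) :
    FR p (fun T0 => ∑ t, if T0 ^ a t = (p : ℂ) then 1 else 0)
      (FZ (mG p σ) fun z =>
        ∏ t, ‖γ t + (p : ℚ_[p]) ^ N * ∑ j, W (e t) j * (z j : ℚ_[p])‖ ^ a t) := by
  classical
  obtain ⟨k, L, hLc, hLo, hL⟩ := exists_avg W hW
  have hfin : Finite ((σ → ℤ_[p]) ⧸ L.range) := AddSubgroup.quotient_finite_of_isOpen _ hLo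
  have _ := Fintype.ofFinite ((σ → ℤ_[p]) ⧸ L.range)
  set G : (σ → ℤ_[p]) → ℝ := fun z =>
    ∏ t, ‖γ t + (p : ℚ_[p]) ^ N * ∑ j, W (e t) j * (z j : ℚ_[p])‖ ^ a t with hG
  have hGc : Continuous G := by
    refine continuous_finsetProd _ fun t _ => ?_
    refine (continuous_norm.comp (continuous_const.add (continuous_const.mul
      (continuous_finsetSum _ fun j _ => continuous_const.mul ?_)))).pow _
    exact inc_cont.comp (continuous_apply j)
  have hG0 : ∀ z, 0 ≤ G z := fun z => Finset.prod_nonneg fun t _ => by positivity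
  have hp1 : (1 : ℂ) ≠ (p : ℂ) := by
    have := (Fact.out : p.Prime).one_lt
    exact_mod_cast this.ne
  have h1 : ∀ q : (σ → ℤ_[p]) ⧸ L.range,
      FR p (fun T0 => ∑ t, if T0 ^ a t = (p : ℂ) then 1 else 0)
      (FZ (mG p σ) fun w => G (q.out + L w)) := by
    intro q
    have h2 := FR_box (p := p) (fun i => Function.extend e γ 0 i +
      (p : ℚ_[p]) ^ N * ∑ j, W i j * (q.out j : ℚ_[p])) (N + k) (Function.extend e a 0)
    refine (h2.mono fun T0 hT0 => le_of_eq ?_).congr fun s hs => ?_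
    · refine (Fintype.sum_of_injective e he _ _ (fun i hi => ?_) fun t => ?_).symm
      · rw [Function.extend_apply' _ _ _ (by simpa using hi), Pi.zero_apply, pow_zero, if_neg hp1]
      · rw [he.extend_apply]
    · congr 1
      funext w
      refine (Fintype.prod_of_injective e he _ _ (fun i hi => ?_) fun t => ?_).symm
      · have hext : Function.extend e a 0 i = 0 := by
          rw [Function.extend_apply' _ _ _ (by simpa using hi)]
          rfl
        unfold r1
        exact (congrArg (fun k => ‖_‖ ^ k) hext).trans (pow_zero _)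
      · unfold r1
        rw [he.extend_apply, he.extend_apply]
        congr 2
        have h3 := hL w (e t)
        simp only [Pi.add_apply, PadicInt.coe_add, mul_add, Finset.sum_add_distrib]
        rw [h3, pow_add]
        change _ = _ + _ * ((w (e t) : ℤ_[p]) : ℚ_[p])
        ring
  have h4 : FR p (fun T0 => ∑ t, if T0 ^ a t = (p : ℂ) then 1 else 0)
      (fun s => ((Fintype.card ((σ → ℤ_[p]) ⧸ L.range) : ℝ)⁻¹ : ℂ) *
        ∑ q : (σ → ℤ_[p]) ⧸ L.range, FZ (mG p σ) (fun w => G (q.out + L w)) s) :=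
    FR.mul0 (F := fun _ => ((Fintype.card ((σ → ℤ_[p]) ⧸ L.range) : ℝ)⁻¹ : ℂ))
      (fun T0 _ => Reg.const _) (FR.sum Finset.univ _ fun q _ => h1 q)
  refine h4.congr fun s hs => ?_
  rw [FZ_eq _ _ hG0 hGc.measurable, avg_integral L hLc (fun z => G z ^ s)
    (hGc.rpow_const fun x => Or.inr hs)]
  push_cast
  congr 1
  refine Finset.sum_congr rfl fun q _ => ?_
  exact FZ_eq _ _ (fun w => hG0 _) (hGc.comp (continuous_const.add hLc)).measurable s

/-- the norm of a product of powers -/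
noncomputable def rho (f : T → MvPolynomial σ ℤ_[p]) (a : T → ℕ) (x : σ → ℤ_[p]) : ℝ :=
  ∏ t, ‖eval x (f t)‖ ^ a t

theorem rho_nonneg (f : T → MvPolynomial σ ℤ_[p]) (a : T → ℕ) (x : σ → ℤ_[p]) : 0 ≤ rho f a x :=
  Finset.prod_nonneg fun _ _ => by positivity

theorem rho_cont (f : T → MvPolynomial σ ℤ_[p]) (a : T → ℕ) : Continuous (rho f a) := by
  unfold rho
  exact continuous_finsetProd _ fun t _ =>
    (continuous_norm.comp (MvPolynomial.continuous_eval (f t))).pow _

theorem sc_cont (N : ℕ) : Continuous (sc N : (σ → ℤ_[p]) → σ → ℤ_[p]) :=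
  continuous_pi fun i => continuous_const.mul (continuous_apply i)

/-- the gradients of the factors which vanish at a point -/
noncomputable def grads (f : T → MvPolynomial σ ℤ_[p]) (x : σ → ℤ_[p]) (t : {t // eval x (f t) = 0}) (j : σ) :
    ℚ_[p] := ((eval x (pderiv j (f t)) : ℤ_[p]) : ℚ_[p])

open Classical in
/-- **The integral near a point with normal crossings.** -/
theorem FR_loc [DecidableEq T] (f : T → MvPolynomial σ ℤ_[p]) (a : T → ℕ) (x0 : σ → ℤ_[p])
    (hli : LinearIndependent ℚ_[p] (grads f x0)) :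
    ∃ N1 : ℕ, ∀ x1 : σ → ℤ_[p], ‖x1 - x0‖ ≤ (p : ℝ)⁻¹ ^ N1 → ∀ N : ℕ, N1 ≤ N →
      FR p (fun T0 => ∑ t : {t // eval x0 (f t) = 0}, if T0 ^ a t = (p : ℂ) then 1 else 0)
        (FZ (mG p σ) fun y => rho f a (x1 + sc N y)) := by
  classical
  obtain ⟨W, e, he, hW, hWe⟩ := exists_matrix (grads f x0) hli
  obtain ⟨N0, hN0⟩ := exists_chart (fun t : {t // eval x0 (f t) = 0} => f t) x0 W hW e he
    (fun t j => by rw [hWe]; rfl)
  have hpinv : (p : ℝ)⁻¹ < 1 :=
    inv_lt_one_of_one_lt₀ (by exact_mod_cast (Fact.out : p.Prime).one_lt)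
  obtain ⟨M, hM⟩ : ∃ M : ℕ, ∀ t, eval x0 (f t) ≠ 0 → (p : ℝ)⁻¹ ^ M < ‖eval x0 (f t)‖ := by
    have h1 : ∀ t : T, ∃ M : ℕ, eval x0 (f t) ≠ 0 → (p : ℝ)⁻¹ ^ M < ‖eval x0 (f t)‖ := by
      intro t
      by_cases h : eval x0 (f t) = 0
      · exact ⟨0, fun h' => absurd h h'⟩
      · obtain ⟨M, hM⟩ := exists_pow_lt_of_lt_one (norm_pos_iff.2 h) hpinv
        exact ⟨M, fun _ => hM⟩
    choose M hM using h1
    refine ⟨∑ t, M t, fun t ht => ?_⟩
    exact (pinv_anti p (Finset.single_le_sum (f := M) (fun _ _ => Nat.zero_le _)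
      (Finset.mem_univ t))).trans_lt (hM t ht)
  refine ⟨max N0 M, fun x1 hx1 N hN => ?_⟩
  obtain ⟨Ψ, hΨ1, hΨ2, hΨ3⟩ := hN0 (max N0 M) (le_max_left _ _) x1 hx1 N hN
  set c0 : ℚ_[p] := ∏ t : {t // ¬ eval x0 (f t) = 0}, ((eval x0 (f t) : ℤ_[p]) : ℚ_[p]) ^ a t
    with hc0
  have hc0n : c0 ≠ 0 := by
    rw [hc0, Finset.prod_ne_zero_iff]
    intro t _
    refine pow_ne_zero _ ?_
    intro h
    exact t.2 (Subtype.ext h)
  set γ : {t // eval x0 (f t) = 0} → ℚ_[p] := fun t => ((eval x1 (f t) : ℤ_[p]) : ℚ_[p]) with hγ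
  set G : (σ → ℤ_[p]) → ℝ := fun z =>
    ∏ t : {t // eval x0 (f t) = 0}, ‖γ t + (p : ℚ_[p]) ^ N *
      ∑ j, W (e t) j * (z j : ℚ_[p])‖ ^ a t with hG
  have hGc : Continuous G := by
    refine continuous_finsetProd _ fun t _ => ?_
    refine (continuous_norm.comp (continuous_const.add (continuous_const.mul
      (continuous_finsetSum _ fun j _ => continuous_const.mul ?_)))).pow _
    exact inc_cont.comp (continuous_apply j)
  have hG0 : ∀ z, 0 ≤ G z := fun z => Finset.prod_nonneg fun t _ => by positivity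
  have hval : ∀ y, rho f a (x1 + sc N y) = ‖c0‖ * G (Ψ y) := by
    intro y
    have h1 := Fintype.prod_subtype_mul_prod_subtype (fun t => eval x0 (f t) = 0)
      (fun t => ‖eval (x1 + sc N y) (f t)‖ ^ a t)
    unfold rho
    rw [← h1, mul_comm]
    congr 1
    · rw [hc0, norm_prod]
      refine Finset.prod_congr rfl fun t _ => ?_
      rw [norm_pow]
      congr 1
      have h2 : ‖eval (x1 + sc N y) (f t) - eval x0 (f t)‖ < ‖eval x0 (f t)‖ := by
        have h3 := tay0 (f t) x0 (x1 + sc N y - x0)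
        rw [add_sub_cancel] at h3
        refine h3.trans_lt (lt_of_le_of_lt ?_ (hM t t.2))
        have h4 : x1 + sc N y - x0 = (x1 - x0) + sc N y := by abel
        rw [h4]
        refine normG_add _ _ _ (hx1.trans (pinv_anti p (le_max_right _ _)))
          ((sc_norm' N y).trans (pinv_anti p ((le_max_right _ _).trans hN)))
      have h5 : eval (x1 + sc N y) (f t) =
          (eval (x1 + sc N y) (f t) - eval x0 (f t)) + eval x0 (f t) := by ring
      rw [h5, PadicInt.norm_add_eq_max_of_ne h2.ne, max_eq_right h2.le, PadicInt.norm_def]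
    · rw [hG]
      refine Finset.prod_congr rfl fun t _ => ?_
      congr 1
      rw [PadicInt.norm_def, hΨ3 t y]
  have h6 := FR_lin (p := p) W hW e he γ N (fun t => a t)
  have h7 := FR.mul0 (F := fun s => ((Pool.Agent.Y230.PT.N p s c0).toReal : ℂ)) (fun T0 hT0 => reg_N hT0 _ hc0n) h6
  refine h7.congr fun s hs => ?_
  have hmeas : Measurable fun y => rho f a (x1 + sc N y) :=
    ((rho_cont f a).comp (continuous_const.add (sc_cont N))).measurable
  have h9 : FZ (mG p σ) (fun y => rho f a (x1 + sc N y)) s =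
      ((∫ y, (‖c0‖ * G (Ψ y)) ^ s ∂(mG p σ) : ℝ) : ℂ) := by
    rw [FZ_eq _ _ (fun y => rho_nonneg f a _) hmeas]
    simp only [hval]
  have h8 : ∀ y, (‖c0‖ * G (Ψ y)) ^ s = ‖c0‖ ^ s * (fun z => G z ^ s) (Ψ y) := fun y =>
    Real.mul_rpow (norm_nonneg _) (hG0 _)
  simp only [h8] at h9
  rw [integral_const_mul, iso_integral Ψ hΨ1 hΨ2 _ (hGc.rpow_const fun x => Or.inr hs)] at h9
  rw [h9, FZ_eq _ _ hG0 hGc.measurable, N_toReal]
  push_cast
  rfl

end Pool.Agent.U841.PA
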