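import Pool.Agent.U841.PA.Bis
import Pool.Agent.U841.SN.Top2

set_option autoImplicit false
set_option linter.unusedSectionVars false
set_option linter.unusedVariables false

/-! # The `p`-adic zeta functions of hypersurfaces whose tangent cones have normal crossings -/

namespace Pool.Agent.U841.PA

open MeasureTheory MvPolynomial Pool.Agent.W427.SMC Pool.Agent.Y230.PT Pool.Agent.Y230.PS
open scoped ENNReal
open Pool.Agent.U184 (fam FF_fam)
open Pool.Agent.U841.SN

attribute [local instance] msZ bsZ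

variable {p : ℕ} [Fact p.Prime] {T : Type} [Fintype T]

/-- components and ring homomorphisms -/
theorem hc_map {R S σ : Type} [CommRing R] [CommRing S] (φ : R →+* S) (j : ℕ)
    (f : MvPolynomial σ R) :
    homogeneousComponent j (map φ f) = map φ (homogeneousComponent j f) := by
  ext m
  rw [coeff_homogeneousComponent, coeff_map, coeff_map, coeff_homogeneousComponent]
  split_ifs
  · rfl
  · rw [map_zero]

theorem hom_eval {R S σ : Type} [CommRing R] [CommRing S] (φ : R →+* S) (y : σ → R)
    (q : MvPolynomial σ R) : φ (eval y q) = eval (fun i => φ (y i)) (map φ q) := by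
  induction q using MvPolynomial.induction_on with
  | C a => rw [eval_C, map_C, eval_C]
  | add f g hf hg => rw [map_add, map_add, map_add, map_add, hf, hg]
  | mul_X f i hf => rw [map_mul, map_mul, map_mul, map_mul, hf, map_X, eval_X, eval_X]

/-- the embedding of `ℤ_p` in `ℂ` -/
noncomputable def psi (φ : ℚ_[p] →+* ℂ) : ℤ_[p] →+* ℂ := φ.comp (PadicInt.Coe.ringHom (p := p))

theorem psi_inj (φ : ℚ_[p] →+* ℂ) : Function.Injective (psi φ) :=
  φ.injective.comp Subtype.val_injective

theorem map_shZ {σ : Type} (φ : ℚ_[p] →+* ℂ) (x : σ → ℤ_[p]) (f : MvPolynomial σ ℤ_[p]) :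
    map (psi φ) (shZ x f) = shiftP (fun i => psi φ (x i)) (map (psi φ) f) := by
  induction f using MvPolynomial.induction_on with
  | C a => rw [shZ, aeval_C, algebraMap_eq, map_C, shiftP_C]
  | add f g hf hg => rw [map_add, map_add, hf, hg, map_add, map_add]
  | mul_X f i hf =>
    rw [map_mul, map_mul, hf, map_mul, map_X, map_mul, shiftP_X]
    congr 1
    rw [shZ, aeval_X, map_add, map_X, map_C]

theorem eval_psi {σ : Type} (φ : ℚ_[p] →+* ℂ) (x : σ → ℤ_[p]) (f : MvPolynomial σ ℤ_[p]) :
    psi φ (eval x f) = eval (fun i => psi φ (x i)) (map (psi φ) f) :=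
  hom_eval _ _ _

variable {n : ℕ} (f : T → MvPolynomial (Fin (n + 1)) ℚ) (a : T → ℕ)

open Classical in
/-- the candidate poles, with multiplicities -/
noncomputable def mS (p : ℕ) (f : T → MvPolynomial (Fin (n + 1)) ℚ) (a : T → ℕ)
    (T0 : ℂ) : ℕ∞ :=
  if (∃ P, (¬ CrossAt (fun t => map (algebraMap ℚ ℂ) (f t)) P) ∧
      T0 ^ (∑ t, a t * multAt P (map (algebraMap ℚ ℂ) (f t))) = (p : ℂ) ^ (n + 1)) ∨
    ∃ t, T0 ^ a t = (p : ℂ) then ⊤ else 0

open Classical in
/-- **The local integrals.** -/
theorem FR_pt (φ : ℚ_[p] →+* ℂ) (K : ℕ) (g : T → MvPolynomial (Fin (n + 1)) ℤ_[p])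
    (hg : ∀ t, map (PadicInt.Coe.ringHom (p := p)) (g t) =
      C ((p : ℚ_[p]) ^ K) * map (algebraMap ℚ ℚ_[p]) (f t))
    (hcone : ∀ P, ConesCrossAt (fun t => map (algebraMap ℚ ℂ) (f t)) P) (hn : 2 ≤ n + 1)
    (ha : ∀ t, 0 < a t)
    (x0 : Fin (n + 1) → ℤ_[p]) : ∃ N1 : ℕ, ∀ N, N1 ≤ N →
      FR p (mS p f a) (fun s => (IR g a x0 N s : ℂ)) := by
  classical
  have hφ : φ.comp (algebraMap ℚ ℚ_[p]) = algebraMap ℚ ℂ := RingHom.ext_rat _ _
  set F : T → MvPolynomial (Fin (n + 1)) ℂ := fun t => map (algebraMap ℚ ℂ) (f t) with hF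
  set P : Fin (n + 1) → ℂ := fun i => psi φ (x0 i) with hP
  set c : ℂ := φ ((p : ℚ_[p]) ^ K) with hc
  have hc0 : c ≠ 0 := by
    rw [hc, Ne, map_eq_zero]
    exact pK_ne p K
  have hgF : ∀ t, map (psi φ) (g t) = C c * F t := by
    intro t
    rw [psi, ← map_map, hg, map_mul, map_C, map_map, hφ]
  have hCc : (C c : MvPolynomial (Fin (n + 1)) ℂ) ≠ 0 := by
    intro h
    rw [← C_0] at h
    exact hc0 (C_injective _ _ h)
  have hev : ∀ t, eval x0 (g t) = 0 ↔ eval P (F t) = 0 := by
    intro t
    rw [← map_eq_zero_iff (psi φ) (psi_inj φ), eval_psi, hgF, map_mul, eval_C]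
    exact ⟨fun h => (mul_eq_zero.1 h).resolve_left hc0, fun h => by rw [h, mul_zero]⟩
  by_cases hcr : CrossAt F P
  · -- normal crossings
    have hli : LinearIndependent ℚ_[p] (grads g x0) := by
      have h1 := hcr
      rw [CrossAt, Fintype.linearIndependent_iff] at h1
      rw [Fintype.linearIndependent_iff]
      intro l hl t0
      have h2 := h1 (fun t => φ (l ⟨t.1, (hev t.1).2 t.2⟩)) (by
        funext j
        rw [Finset.sum_apply, Pi.zero_apply]
        have h3 := congrFun hl j
        rw [Finset.sum_apply, Pi.zero_apply] at h3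
        have h4 := congrArg φ h3
        rw [map_sum, map_zero] at h4
        have h5 : c * ∑ t : {t // eval P (F t) = 0}, φ (l ⟨t.1, (hev t.1).2 t.2⟩) *
            eval P (pderiv j (F t)) = 0 := by
          refine Eq.trans ?_ h4
          rw [Finset.mul_sum]
          refine Fintype.sum_equiv (Equiv.subtypeEquivRight fun t => (hev t).symm) _ _
            fun t => ?_
          rw [Pi.smul_apply, smul_eq_mul, map_mul]
          have h6 : φ (grads g x0 ⟨t.1, (hev t.1).2 t.2⟩ j) =
              psi φ (eval x0 (pderiv j (g t.1))) := rfl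
          have h7 : psi φ (eval x0 (pderiv j (g t.1))) = c * eval P (pderiv j (F t.1)) := by
            rw [eval_psi, ← pderiv_map, hgF, pderiv_C_mul, map_mul, eval_C]
          calc c * (φ (l ⟨t.1, (hev t.1).2 t.2⟩) * eval P (pderiv j (F t.1))) =
              φ (l ⟨t.1, (hev t.1).2 t.2⟩) * (c * eval P (pderiv j (F t.1))) := by ring
            _ = φ (l ⟨t.1, (hev t.1).2 t.2⟩) *
              φ (grads g x0 ⟨t.1, (hev t.1).2 t.2⟩ j) := by rw [h6, h7]
        exact (mul_eq_zero.1 h5).resolve_left hc0) ⟨t0.1, (hev t0.1).1 t0.2⟩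
      exact (map_eq_zero φ).1 h2
    obtain ⟨N1, hN1⟩ := FR_loc g a x0 hli
    refine ⟨N1, fun N hN => ?_⟩
    have h1 := hN1 x0 (by rw [sub_self, norm_zero]; exact (pinv_pos p N1).le) N hN
    refine (h1.mono fun T0 hT0 => ?_).congr fun s hs => FZ_IR g a x0 N s
    by_cases h : ∃ t, T0 ^ a t = (p : ℂ)
    · rw [mS, if_pos (Or.inr h)]
      exact le_top
    · push Not at h
      rw [Finset.sum_eq_zero fun t _ => if_neg (h t.1)]
      exact zero_le
  · -- the initial forms
    set δ : T → ℕ := fun t => multAt P (F t) with hδ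
    have hshift : ∀ t j, map (psi φ) (homogeneousComponent j (shZ x0 (g t))) =
        C c * homogeneousComponent j (shiftP P (F t)) := by
      intro t j
      rw [← hc_map, map_shZ, hgF, map_mul, shiftP_C, homogeneousComponent_C_mul]
    have hinit : ∀ t, map (psi φ) (homogeneousComponent (δ t) (shZ x0 (g t))) =
        C c * initAt P (F t) := fun t => hshift t _
    have hq : ∀ t j, j < δ t → homogeneousComponent j (shZ x0 (g t)) = 0 := by
      intro t j hj
      apply map_injective (psi φ) (psi_inj φ)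
      rw [hshift, ordGe_multAt P (F t) j hj, mul_zero, map_zero]
    have hNC : NCp fun t => map (PadicInt.Coe.ringHom (p := p))
        (homogeneousComponent (δ t) (shZ x0 (g t))) := by
      intro y hy
      set Y : Fin (n + 1) → ℂ := fun i => φ (y i) with hY
      have hY0 : Y ≠ 0 := by
        intro h
        apply hy
        funext i
        have h1 := congrFun h i
        exact (map_eq_zero φ).1 h1
      set G : T → MvPolynomial (Fin (n + 1)) ℚ_[p] := fun t =>
        map (PadicInt.Coe.ringHom (p := p)) (homogeneousComponent (δ t) (shZ x0 (g t))) with hG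
      have hGφ : ∀ t, map φ (G t) = C c * initAt P (F t) := by
        intro t
        rw [hG, ← hinit, psi, ← map_map]
      have hφe : ∀ q : MvPolynomial (Fin (n + 1)) ℚ_[p], φ (eval y q) = eval Y (map φ q) := by
        intro q
        exact hom_eval _ _ _
      have hev2 : ∀ t, eval y (G t) = 0 ↔ eval Y (initAt P (F t)) = 0 := by
        intro t
        rw [← map_eq_zero φ, hφe, hGφ, map_mul, eval_C]
        exact ⟨fun h => (mul_eq_zero.1 h).resolve_left hc0, fun h => by rw [h, mul_zero]⟩
      -- the functions which do not vanish at `P`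
      have hconst : ∀ t, eval Y (initAt P (F t)) = 0 → eval P (F t) = 0 := by
        intro t ht
        by_contra h0
        have h1 := multAt_zero P (F t) h0
        rw [initAt, h1, homogeneousComponent_zero, eval_C, ← constantCoeff_eq, cc_shiftP] at ht
        exact h0 ht
      have h1 := hcone P Y hY0
      rw [Fintype.linearIndependent_iff] at h1 ⊢
      intro l hl t0
      have ht0 : eval Y (initAt P (F t0.1)) = 0 := (hev2 t0.1).1 t0.2
      have h2 := h1 (fun t => φ (l ⟨t.1.1, (hev2 t.1.1).2 t.2⟩)) (by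
        funext j
        rw [Finset.sum_apply, Pi.zero_apply]
        have h3 := congrFun hl j
        rw [Finset.sum_apply, Pi.zero_apply] at h3
        have h4 := congrArg φ h3
        rw [map_sum, map_zero] at h4
        have h5 : c * ∑ t : {t : {t // eval P (F t) = 0} // eval Y (initAt P (F t)) = 0},
            φ (l ⟨t.1.1, (hev2 t.1.1).2 t.2⟩) * eval Y (pderiv j (initAt P (F t.1.1))) = 0 := by
          refine Eq.trans ?_ h4
          rw [Finset.mul_sum]
          let E : {t : {t // eval P (F t) = 0} // eval Y (initAt P (F t)) = 0} ≃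
              {t // eval y (G t) = 0} :=
            { toFun := fun t => ⟨t.1.1, (hev2 t.1.1).2 t.2⟩
              invFun := fun t => ⟨⟨t.1, hconst t.1 ((hev2 t.1).1 t.2)⟩, (hev2 t.1).1 t.2⟩
              left_inv := fun t => rfl
              right_inv := fun t => rfl }
          refine Fintype.sum_equiv E _ _ fun t => ?_
          rw [Pi.smul_apply, smul_eq_mul, map_mul]
          have h7 : φ (eval y (pderiv j (G t.1.1))) =
              c * eval Y (pderiv j (initAt P (F t.1.1))) := by
            rw [hφe, ← pderiv_map, hGφ, pderiv_C_mul, map_mul, eval_C]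
          calc c * (φ (l ⟨t.1.1, (hev2 t.1.1).2 t.2⟩) * eval Y (pderiv j (initAt P (F t.1.1)))) =
              φ (l ⟨t.1.1, (hev2 t.1.1).2 t.2⟩) *
                (c * eval Y (pderiv j (initAt P (F t.1.1)))) := by ring
            _ = φ (l (E t)) * φ (eval y (pderiv j (G t.1.1))) := by rw [h7]; rfl
        exact (mul_eq_zero.1 h5).resolve_left hc0) ⟨⟨t0.1, hconst t0.1 ht0⟩, ht0⟩
      exact (map_eq_zero φ).1 h2
    have hd : 0 < ∑ t, a t * δ t := by
      obtain ⟨t, ht⟩ : ∃ t, eval P (F t) = 0 := by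
        by_contra hno
        push Not at hno
        apply hcr
        have : IsEmpty {t // eval P (F t) = 0} := ⟨fun t => hno t.1 t.2⟩
        exact linearIndependent_empty_type
      have h1 : 0 < δ t := multAt_pos P (F t) ((hcone P).ne hn ⟨t, ht⟩) ht
      exact (Nat.mul_pos (ha t) h1).trans_le (Finset.single_le_sum (f := fun t => a t * δ t)
        (fun _ _ => Nat.zero_le _) (Finset.mem_univ t))
    obtain ⟨N1, hN1⟩ := FR_conept g a δ x0 hq hNC hd
    refine ⟨N1, fun N hN => (hN1 N hN).mono fun T0 hT0 => ?_⟩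
    by_cases h : T0 ^ (∑ t, a t * δ t) = (p : ℂ) ^ (n + 1) ∨ ∃ t, T0 ^ a t = (p : ℂ)
    · rw [if_pos h, mS, if_pos (h.imp (fun h => ⟨P, hcr, h⟩) id)]
    · rw [if_neg h]
      exact zero_le

/-- **The zeta function.** -/
theorem FR_glob (hcone : ∀ P, ConesCrossAt (fun t => map (algebraMap ℚ ℂ) (f t)) P)
    (hn : 2 ≤ n + 1) (ha : ∀ t, 0 < a t) : FR p (mS p f a) (FF (fam p (∏ t, f t ^ a t))) := by
  classical
  obtain ⟨φ⟩ := exists_emb p
  obtain ⟨K, g, hg⟩ := exists_int (p := p) fun t => map (algebraMap ℚ ℚ_[p]) (f t)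
  have h1 := FR_bis g a (mS p f a) (FR_pt f a φ K g hg hcone hn ha)
  set F := fam p (∏ t, f t ^ a t) with hF
  refine (FR_scale (Measure.pi fun _ : Fin (n + 1) => mu p) (sz F) (sz_nonneg F)
    (K * ∑ t, a t)).1 ?_
  have h2 : rho g a = fun x => ((p : ℝ)⁻¹) ^ (K * ∑ t, a t) * sz F x := by
    funext x
    have h3 : sz F x = ‖eval (fun i => inc p (x i))
        (map (algebraMap ℚ ℚ_[p]) (∏ t, f t ^ a t))‖ :=
      pi_norm_const (ι := Fin 1) (eval (fun i => inc p (x i))
        (map (algebraMap ℚ ℚ_[p]) (∏ t, f t ^ a t)))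
    rw [h3, map_prod, map_prod, norm_prod, rho, pow_mul, ← Finset.prod_pow_eq_pow_sum,
      ← Finset.prod_mul_distrib]
    refine Finset.prod_congr rfl fun t _ => ?_
    rw [map_pow, map_pow, norm_pow, ← mul_pow]
    congr 1
    rw [PadicInt.norm_def, map_eval_coe, hg, map_mul, eval_C, norm_mul, norm_pow, Padic.norm_p]
  rw [← h2]
  exact h1

end Pool.Agent.U841.PA
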