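import Pool.Agent.U841.PA.Trans
import Pool.Agent.U841.PA.Poin

set_option autoImplicit false
set_option linter.unusedSectionVars false
set_option linter.unusedVariables false

/-! # The `p`-adic zeta functions and the Bernstein-Sato polynomial, for hypersurfaces whose tangent
cones have normal crossings -/

namespace Pool.Agent.U841.PA

open MeasureTheory MvPolynomial Pool.Agent.W427.SMC Pool.Agent.Y230.PT Pool.Agent.Y230.PS
open scoped ENNReal
open Pool.Agent.U184 (fam FF_fam)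
open Pool.Agent.U841.SN
open Pool.Agent.H628R4.TP (IsBFunction)

attribute [local instance] msZ bsZ

variable {p : ℕ} [Fact p.Prime] {T : Type} [Fintype T]

section

variable {n : ℕ} (hn : 2 ≤ n) (f : T → MvPolynomial (Fin n) ℚ)
  (hu : ∀ t, ¬ IsUnit (map (algebraMap ℚ ℂ) (f t)))
  (hcone : ∀ P, ConesCrossAt (fun t => map (algebraMap ℚ ℂ) (f t)) P)
  (a : T → ℕ) (ha : ∀ t, 0 < a t)

include hn hu hcone ha in
/-- **A rational function with denominator**, whose roots come from roots of `b` -/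
theorem tc_rat (b : Polynomial ℂ) (hb : IsBFunction (map (algebraMap ℚ ℂ) (∏ t, f t ^ a t)) b) :
    ∃ D P : Polynomial ℂ, D ≠ 0 ∧ (∀ s : ℝ, 0 ≤ s →
      D.eval ((tr' p s : ℝ) : ℂ) * ((∫⁻ x : Fin n → ℤ_[p], N p s (eval₂ (algebraMap ℚ ℚ_[p])
        (fun i => inc p (x i)) (∏ t, f t ^ a t)) ∂(Measure.pi fun _ : Fin n => mu p)).toReal : ℂ) =
          P.eval ((tr' p s : ℝ) : ℂ)) ∧
      ∀ T0, T0 ≠ 0 → D.eval T0 = 0 → b.eval ((rr p T0 : ℝ) : ℂ) = 0 := by
  classical
  obtain ⟨m, rfl⟩ : ∃ m, n = m + 1 := ⟨n - 1, by omega⟩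
  obtain ⟨D, P, hD, h3, h4⟩ :=
    (FR_glob (p := p) f a hcone hn ha).rat
  refine ⟨D, P, hD, fun s hs => ?_, fun T0 hT0 hD0 => ?_⟩
  · rw [← FF_fam]
    exact h3 s hs
  · rw [map_prodPow] at hb
    have h5 := h4 T0 hT0
    have h6 : 1 ≤ D.rootMultiplicity T0 := by
      rw [Nat.one_le_iff_ne_zero, Ne, Polynomial.rootMultiplicity_eq_zero_iff]
      intro h
      exact hD (h hD0)
    unfold Pool.Agent.Y230.PS.tr at h5
    by_cases h7 : ‖T0‖ ≤ 1
    · rw [if_pos h7] at h5
      have : D.rootMultiplicity T0 = 0 := by exact_mod_cast le_antisymm h5 bot_le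
      omega
    · rw [if_neg h7] at h5
      by_cases h8 : (∃ P, (¬ CrossAt (fun t => map (algebraMap ℚ ℂ) (f t)) P) ∧
          T0 ^ (∑ t, a t * multAt P (map (algebraMap ℚ ℂ) (f t))) =
          (p : ℂ) ^ (m + 1)) ∨ ∃ t, T0 ^ a t = (p : ℂ)
      · rcases h8 with ⟨P, hP, h8⟩ | ⟨t, h8⟩
        · have hd : 0 < ∑ t, a t * multAt P (map (algebraMap ℚ ℂ) (f t)) := by
            rcases Nat.eq_zero_or_pos (∑ t, a t * multAt P (map (algebraMap ℚ ℂ) (f t))) with h | h
            · rw [h, pow_zero] at h8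
              have h9 : (1 : ℂ) ≠ (p : ℂ) ^ (m + 1) := by
                have h10 : 1 < p ^ (m + 1) :=
                  Nat.one_lt_pow (Nat.succ_ne_zero m) (Fact.out : p.Prime).one_lt
                exact_mod_cast h10.ne
              exact absurd h8 h9
            · exact h
          have h9 := rr_pow (p := p) _ _ hd _ h8
          have h10 := glob_cand hn ha hcone {P} (fun Q hQ => by
            rw [Finset.mem_singleton] at hQ
            rw [hQ]
            exact hP) hu b hb (Sum.inl ⟨P, Finset.mem_singleton_self P⟩)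
          rw [h9]
          have h11 : ((-((m + 1 : ℕ) : ℝ) /
              ((∑ t, a t * multAt P (map (algebraMap ℚ ℂ) (f t)) : ℕ) : ℝ) : ℝ) : ℂ) =
              -((m + 1 : ℕ) : ℂ) /
              ((∑ t, a t * multAt P (map (algebraMap ℚ ℂ) (f t)) : ℕ) : ℂ) := by
            rw [Complex.ofReal_div, Complex.ofReal_neg, Complex.ofReal_natCast,
              Complex.ofReal_natCast]
          rw [h11]
          exact h10
        · have h8' : T0 ^ a t = (p : ℂ) ^ 1 := by rw [pow_one]; exact h8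
          have h9 := rr_pow (p := p) _ _ (ha t) _ h8'
          have h10 := glob_cand hn ha hcone ∅ (fun Q hQ => absurd hQ (Finset.notMem_empty Q))
            hu b hb (Sum.inr t)
          rw [h9]
          have h11 : ((-((1 : ℕ) : ℝ) / ((a t : ℕ) : ℝ) : ℝ) : ℂ) =
              -((1 : ℕ) : ℂ) / ((a t : ℕ) : ℂ) := by
            rw [Complex.ofReal_div, Complex.ofReal_neg, Complex.ofReal_natCast,
              Complex.ofReal_natCast]
          rw [h11]
          exact h10
      · unfold mS at h5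
        rw [if_neg h8] at h5
        have : D.rootMultiplicity T0 = 0 := by exact_mod_cast le_antisymm h5 bot_le
        omega

include hn hu hcone ha in
/-- **The real parts of the poles** -/
theorem tc_mero (b : Polynomial ℂ) (hb : IsBFunction (map (algebraMap ℚ ℂ) (∏ t, f t ^ a t)) b)
    (Z : ℂ → ℂ) (hZ : MeromorphicOn Z Set.univ)
    (hZp : ∀ s : ℝ, 0 < s → Z s = zetaQ p (∏ t, f t ^ a t) s) (s₀ : ℂ)
    (hs : meromorphicOrderAt Z s₀ < 0) : b.eval (s₀.re : ℂ) = 0 := by
  obtain ⟨D, P, hD0, h1, h3⟩ := tc_rat (p := p) hn f hu hcone a ha b hb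
  have h4 := mero_bound p D P hD0 Z hZ (fun s hs => by
    rw [pw_real, hZp s hs, zetaQ_eq, h1 s hs.le]) s₀
  have h5 : rr p (pw p s₀) = s₀.re := pw_norm p s₀
  have hn : D.rootMultiplicity (pw p s₀) ≠ 0 := by
    intro h0
    rw [h0] at h4
    exact absurd (lt_of_le_of_lt h4 hs) (by simp)
  rw [← h5]
  refine h3 _ (pw_ne_zero p s₀) ?_
  by_contra hne
  exact hn (Polynomial.rootMultiplicity_eq_zero hne)

end

section

variable {n : ℕ} (hn : 2 ≤ n) (f : T → MvPolynomial (Fin n) ℤ)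
  (hu : ∀ t, ¬ IsUnit (map (Int.castRingHom ℂ) (f t)))
  (hcone : ∀ P, ConesCrossAt (fun t => map (Int.castRingHom ℂ) (f t)) P)
  (a : T → ℕ) (ha : ∀ t, 0 < a t)

include hn hu hcone ha in
/-- **The Poincaré series**, for every prime `p` -/
theorem tc_poin (b : Polynomial ℂ) (hb : IsBFunction (map (Int.castRingHom ℂ) (∏ t, f t ^ a t)) b) :
    ∃ Φ : RatFunc ℂ, ((Φ.denom : Polynomial ℂ) : PowerSeries ℂ) * poincare p (∏ t, f t ^ a t) =
        ((Φ.num : Polynomial ℂ) : PowerSeries ℂ) ∧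
      ∀ T₀ : ℂ, Φ.denom.eval T₀ = 0 →
        b.eval ((-Real.log ‖T₀‖ / Real.log p : ℝ) : ℂ) = 0 := by
  rw [castZ', castQ_prod] at hb
  simp only [castZ'] at hu hcone
  obtain ⟨D, P, hD0, h1, h3⟩ := tc_rat (p := p) hn (fun t => map (Int.castRingHom ℚ) (f t))
    hu hcone a ha b hb
  obtain ⟨Φ, h4, h5, h6⟩ := poincare_of p (∏ t, f t ^ a t) D P hD0 (fun s hs => by
    rw [← h1 s hs, ← castQ_prod]
    simp only [tau_N])
  refine ⟨Φ, h4, fun T hT0 => ?_⟩
  have hd : Φ.denom ≠ 0 := Φ.denom_ne_zero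
  have h7 : Φ.denom.rootMultiplicity T ≠ 0 := by
    rw [Ne, Polynomial.rootMultiplicity_eq_zero_iff]
    intro h
    exact hd (h hT0)
  have hT : T ≠ 0 := by
    rintro rfl
    exact h7 h5
  refine h3 T hT ?_
  by_contra hne
  have h8 := h6 T
  rw [Polynomial.rootMultiplicity_eq_zero (p := D) hne] at h8
  omega

include hn hu hcone ha in
/-- **The poles of the Igusa zeta function** -/
theorem tc_igusa (b : Polynomial ℂ)
    (hb : IsBFunction (map (Int.castRingHom ℂ) (∏ t, f t ^ a t)) b)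
    (Z : ℂ → ℂ) (hZ : MeromorphicOn Z Set.univ)
    (hZp : ∀ s : ℂ, 0 < s.re → Z s = igusaZeta p (∏ t, f t ^ a t) s) (s₀ : ℂ)
    (hs : meromorphicOrderAt Z s₀ < 0) : b.eval (s₀.re : ℂ) = 0 := by
  rw [castZ', castQ_prod] at hb
  simp only [castZ'] at hu hcone
  exact tc_mero (p := p) hn (fun t => map (Int.castRingHom ℚ) (f t)) hu hcone a ha b hb Z hZ
    (fun s hs => by rw [hZp s (by simpa using hs), igusa_zetaQ', castQ_prod]) s₀ hs

end

end Pool.Agent.U841.PA
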